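import Pool.Agent.Work.MP_d1ad45_an.Hopf

-- merged part: Pool.Agent.Work.MP_d1ad45_an.Chart
section
/-!
Linear sections of the Grassmannian of planes in `ℝ^6`, in an affine chart: for a dense set of
six equations through the origin of the chart, the solutions of any subsystem span the
annihilator of that subsystem.
-/

namespace Pool.Agent.Work.MP_d1ad45_an

open Filter Topology Set Module Matrix

abbrev Y6 := Fin 6 → ℝ
abbrev X2 := Fin 2 → ℝ
abbrev ZZ := X2 × Y6
abbrev EE := ℝ × X2 × Y6 × Y6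

def bq : ZZ →ₗ[ℝ] ZZ →ₗ[ℝ] Y6 :=
  LinearMap.mk₂ ℝ (fun w v => ![w.1 0 * v.2 3 - w.2 0 * v.1 1, w.1 0 * v.2 4 - w.2 1 * v.1 1,
      w.1 0 * v.2 5 - w.2 2 * v.1 1, w.2 0 * v.2 4 - w.2 1 * v.2 3, w.2 0 * v.2 5 - w.2 2 * v.2 3,
      w.2 1 * v.2 5 - w.2 2 * v.2 4])
    (fun _ _ _ => by ext i; fin_cases i <;> simp <;> ring)
    (fun _ _ _ => by ext i; fin_cases i <;> simp <;> ring)
    (fun _ _ _ => by ext i; fin_cases i <;> simp <;> ring)
    (fun _ _ _ => by ext i; fin_cases i <;> simp <;> ring)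

theorem bq_apply (w v : ZZ) : bq w v = ![w.1 0 * v.2 3 - w.2 0 * v.1 1,
    w.1 0 * v.2 4 - w.2 1 * v.1 1, w.1 0 * v.2 5 - w.2 2 * v.1 1, w.2 0 * v.2 4 - w.2 1 * v.2 3,
    w.2 0 * v.2 5 - w.2 2 * v.2 3, w.2 1 * v.2 5 - w.2 2 * v.2 4] := rfl

def ev (w : ZZ) : EE →ₗ[ℝ] ℝ where
  toFun e := e.1 + e.2.1 ⬝ᵥ w.1 + e.2.2.1 ⬝ᵥ w.2 + e.2.2.2 ⬝ᵥ bq w w
  map_add' _ _ := by simp only [Prod.fst_add, Prod.snd_add, add_dotProduct]; ring
  map_smul' _ _ := by
    simp only [Prod.smul_fst, Prod.smul_snd, smul_dotProduct, smul_eq_mul, RingHom.id_apply]; ring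

theorem ev_apply (w : ZZ) (e : EE) :
    ev w e = e.1 + e.2.1 ⬝ᵥ w.1 + e.2.2.1 ⬝ᵥ w.2 + e.2.2.2 ⬝ᵥ bq w w := rfl

theorem an_dot {P : Type*} [NormedAddCommGroup P] [NormedSpace ℝ P] {n : ℕ}
    {f g : P → Fin n → ℝ} {x : P} (hf : AnalyticAt ℝ f x) (hg : AnalyticAt ℝ g x) :
    AnalyticAt ℝ (fun p => f p ⬝ᵥ g p) x :=
  Finset.analyticAt_fun_sum _ fun i _ => (an_apply hf i).mul (an_apply hg i)

def xh (C : Fin 6 → X2) (x : X2) : ZZ := (x, fun j => -(C j ⬝ᵥ x))

def zz (C : Fin 6 → X2) (R : Fin 6 → Y6) (x : X2) : ZZ :=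
  (0, fun j => -(R j ⬝ᵥ bq (xh C x) (xh C x)))

theorem chart_local (C : Fin 6 → X2) (R : Fin 6 → Y6) (lx : X2) (η : Y6)
    (h : ∀ w : ZZ, (∀ j, w.2 j + C j ⬝ᵥ w.1 + R j ⬝ᵥ bq w w = 0) →
      lx ⬝ᵥ w.1 + η ⬝ᵥ bq w w = 0) (x : X2) :
    lx ⬝ᵥ x = 0 ∧ η ⬝ᵥ bq (xh C x) (xh C x) = 0 ∧
      η ⬝ᵥ (bq (xh C x) (zz C R x) + bq (zz C R x) (xh C x)) = 0 := by
  set a := xh C x with ha
  let u : ℝ × Y6 → ZZ := fun p => a + p.1 • ((0, p.2) : ZZ)
  let f : ℝ × Y6 → Y6 := fun p j => p.2 j + R j ⬝ᵥ bq (u p) (u p)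
  have hu : ∀ p, AnalyticAt ℝ u p := fun p =>
    analyticAt_const.add (analyticAt_fst.smul (analyticAt_const.prod analyticAt_snd))
  have hf : ∀ p, AnalyticAt ℝ f p := fun p => AnalyticAt.pi fun j =>
    (an_apply analyticAt_snd j).add (an_dot analyticAt_const (an_bil bq (hu p) (hu p)))
  have hu0 : ∀ z, u (0, z) = a := fun z => by simp only [u, zero_smul, add_zero]
  set z0 : Y6 := (zz C R x).2 with hz0
  have hzz : zz C R x = (0, z0) := rfl
  have hcl : ((0 : ℝ), z0) ∈ closure {p : ℝ × Y6 | p.1 ≠ 0 ∧ f p = 0} := by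
    rw [mem_closure_iff_nhds]
    intro N hN
    have := persist f 0 z0 (hf _) (by
      funext j; simp [f, hu0, hz0, zz, ← ha]) (fun y => ⟨y, 0, fun t => by
      funext j; simp [f, hu0, hz0, zz, ← ha]⟩) N hN
    obtain ⟨t, ⟨z, hz, hfz⟩, ht⟩ :=
      ((this.filter_mono (nhdsWithin_le_nhds (s := {0}ᶜ))).and self_mem_nhdsWithin).exists
    exact ⟨(t, z), hz, ht, hfz⟩
  have key : ∀ g : ℝ × Y6 → ℝ, Continuous g → (∀ p, p.1 ≠ 0 → f p = 0 → g p = 0) →
      g (0, z0) = 0 := by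
    intro g hg hg0
    exact (isClosed_eq hg continuous_const).closure_subset_iff.2
      (fun p hp => hg0 p hp.1 hp.2) hcl
  have hcu : Continuous u := continuous_iff_continuousAt.2 fun p => (hu p).continuousAt
  have hb : ∀ {g1 g2 : ℝ × Y6 → ZZ}, (∀ p, AnalyticAt ℝ g1 p) → (∀ p, AnalyticAt ℝ g2 p) →
      Continuous fun p => η ⬝ᵥ bq (g1 p) (g2 p) := fun h1 h2 =>
    continuous_iff_continuousAt.2 fun p =>
      (an_dot analyticAt_const (an_bil bq (h1 p) (h2 p))).continuousAt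
  have h1 : ∀ p : ℝ × Y6, p.1 ≠ 0 → f p = 0 → lx ⬝ᵥ x + p.1 * η ⬝ᵥ bq (u p) (u p) = 0 := by
    rintro ⟨t, z⟩ ht hp
    have := h (t • u (t, z)) fun j => by
      have e := congrFun hp j
      simp only [f, Pi.zero_apply] at e
      simp only [map_smul, LinearMap.smul_apply, dotProduct_smul, smul_eq_mul]
      have e1 : (t • u (t, z)).1 = t • x := by simp [u, ha, xh]
      have e2 : (t • u (t, z)).2 j = t * (-(C j ⬝ᵥ x) + t * z j) := rfl
      rw [e1, e2, dotProduct_smul, smul_eq_mul]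
      linear_combination t * t * e
    have e1 : (t • u (t, z)).1 = t • x := by simp [u, ha, xh]
    rw [e1] at this
    simp only [map_smul, LinearMap.smul_apply, dotProduct_smul, smul_eq_mul] at this
    apply mul_left_cancel₀ ht
    linear_combination this
  have r1 : lx ⬝ᵥ x = 0 := by
    simpa using key _ (continuous_const.add (continuous_fst.mul (hb hu hu))) h1
  have h2 : ∀ p : ℝ × Y6, p.1 ≠ 0 → f p = 0 → η ⬝ᵥ bq (u p) (u p) = 0 := by
    intro p ht hp
    have := h1 p ht hp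
    rw [r1, zero_add] at this
    exact (mul_eq_zero.1 this).resolve_left ht
  have r2 : η ⬝ᵥ bq a a = 0 := by
    simpa [hu0] using key _ (hb hu hu) h2
  have hz : ∀ p : ℝ × Y6, AnalyticAt ℝ (fun p : ℝ × Y6 => ((0, p.2) : ZZ)) p := fun p =>
    analyticAt_const.prod analyticAt_snd
  have hc : ∀ p : ℝ × Y6, AnalyticAt ℝ (fun _ : ℝ × Y6 => a) p := fun p => analyticAt_const
  have h3 : ∀ p : ℝ × Y6, p.1 ≠ 0 → f p = 0 → η ⬝ᵥ bq a (0, p.2) + η ⬝ᵥ bq (0, p.2) a +
      p.1 * η ⬝ᵥ bq (0, p.2) (0, p.2) = 0 := by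
    intro p ht hp
    have := h2 p ht hp
    simp only [u, map_add, map_smul, LinearMap.add_apply, LinearMap.smul_apply, dotProduct_add,
      dotProduct_smul, smul_eq_mul, r2] at this
    apply mul_left_cancel₀ ht
    linear_combination this
  have r3 := key _ (((hb hc hz).add (hb hz hc)).add (continuous_fst.mul (hb hz hz))) h3
  refine ⟨r1, r2, ?_⟩
  rw [hzz, dotProduct_add]
  simpa using r3

def xs : Fin 3 → X2 := ![![1, 0], ![0, 1], ![1, 1]]

def osc (p : (Fin 6 → X2) × (Fin 6 → Y6)) : Y6 →ₗ[ℝ] (Fin 3 → ℝ) × (Fin 3 → ℝ) where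
  toFun η := (fun s => η ⬝ᵥ bq (xh p.1 (xs s)) (xh p.1 (xs s)),
    fun s => η ⬝ᵥ (bq (xh p.1 (xs s)) (zz p.1 p.2 (xs s)) + bq (zz p.1 p.2 (xs s)) (xh p.1 (xs s))))
  map_add' _ _ := by ext <;> simp only [add_dotProduct] <;> rfl
  map_smul' _ _ := by ext <;> simp only [smul_dotProduct] <;> rfl

theorem osc_dense : ∃ W : Set ((Fin 6 → X2) × (Fin 6 → Y6)), Dense W ∧
    ∀ p ∈ W, ∀ η, osc p η = 0 → η = 0 := by
  obtain ⟨W, -, h1, h2⟩ := dense_inj osc (by
      intro η p
      have hx : ∀ x, AnalyticAt ℝ (fun p : (Fin 6 → X2) × (Fin 6 → Y6) => xh p.1 x) p :=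
        fun x => analyticAt_const.prod (AnalyticAt.pi fun j =>
          (an_dot (an_apply analyticAt_fst j) analyticAt_const).neg)
      have hz : ∀ x, AnalyticAt ℝ (fun p : (Fin 6 → X2) × (Fin 6 → Y6) => zz p.1 p.2 x) p :=
        fun x => analyticAt_const.prod (AnalyticAt.pi fun j =>
          (an_dot (an_apply analyticAt_snd j) (an_bil bq (hx x) (hx x))).neg)
      exact (AnalyticAt.pi fun s => an_dot analyticAt_const (an_bil bq (hx _) (hx _))).prod
        (AnalyticAt.pi fun s => an_dot analyticAt_const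
          ((an_bil bq (hx _) (hz _)).add (an_bil bq (hz _) (hx _)))))
    (![![0, -1], 0, 0, ![-1, 0], 0, ![-1, 0]],
      ![0, ![-1, 0, 0, 0, 0, 0], 0, 0, ![0, 0, -1, 0, 0, 0], 0]) (by
      intro η h
      have h1 := congrArg Prod.fst h
      have h2 := congrArg Prod.snd h
      have a0 := congrFun h1 0
      have a1 := congrFun h1 1
      have a2 := congrFun h1 2
      have b0 := congrFun h2 0
      have b1 := congrFun h2 1
      have b2 := congrFun h2 2
      simp [osc, xs, xh, zz, bq_apply, dotProduct, Fin.sum_univ_succ] at a0 a1 a2 b0 b1 b2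
      funext i
      fin_cases i <;> simp <;> linarith only [a1, b1, a0, b2, a2, b0])
  exact ⟨W, h1, h2⟩

def chart (C : Fin 6 → X2) (R : Fin 6 → Y6) (j : Fin 6) : EE := (0, C j, Pi.single j 1, R j)

theorem chart_span (C : Fin 6 → X2) (R : Fin 6 → Y6) (hO : ∀ η, osc (C, R) η = 0 → η = 0)
    (ν : EE) (h : ∀ w, (∀ j, ev w (chart C R j) = 0) → ev w ν = 0) :
    ν = ∑ j, ν.2.2.1 j • chart C R j := by
  set μ := ν - ∑ j, ν.2.2.1 j • chart C R j with hμ
  have h1 : ∀ w, (∀ j, ev w (chart C R j) = 0) → ev w μ = 0 := by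
    intro w hw
    simp [hμ, map_sum, h w hw, hw]
  have h2 : μ.2.2.1 = 0 := by
    funext i
    simp [hμ, Prod.snd_sum, Prod.fst_sum, chart, Pi.single_apply]
  have h3 : μ.1 = 0 := by
    have := h1 0 fun j => by simp [ev_apply, chart]
    simpa [ev_apply] using this
  have h4 := chart_local C R μ.2.1 μ.2.2.2 fun w hw => by
    have := h1 w fun j => by
      have := hw j
      simp only [ev_apply, chart, single_dotProduct]
      linarith
    simpa [ev_apply, h2, h3] using this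
  have h5 : μ.2.1 = 0 := by
    funext i
    simpa using (h4 (Pi.single i 1)).1
  have h6 : μ.2.2.2 = 0 := by
    apply hO
    ext s
    · exact (h4 _).2.1
    · exact (h4 _).2.2
  have : μ = 0 := Prod.ext h3 (Prod.ext h5 (Prod.ext h2 h6))
  exact sub_eq_zero.1 this

theorem chart_dense (U : Set (Fin 6 → EE)) (hU : IsOpen U) (e : Fin 6 → EE) (he : e ∈ U)
    (he0 : ∀ i, (e i).1 = 0) :
    ∃ e' ∈ U, (∀ i, (e' i).1 = 0) ∧ ∀ (J : Set (Fin 6)) (ν : EE),
      (∀ w, (∀ i ∈ J, ev w (e' i) = 0) → ev w ν = 0) → ν ∈ Submodule.span ℝ (e' '' J) := by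
  classical
  let emb : (Fin 6 → X2 × Y6 × Y6) → Fin 6 → EE := fun p i => (0, p i)
  have hemb : Continuous emb := by fun_prop
  obtain ⟨W, -, hW, hWi⟩ := dense_inj
    (fun p : Fin 6 → X2 × Y6 × Y6 => Matrix.mulVecLin (Matrix.of fun i => (p i).2.1)) (by
      intro v x
      exact AnalyticAt.pi fun i => an_dot (analyticAt_fst.comp (analyticAt_snd.comp
        (an_apply analyticAt_id i))) analyticAt_const)
    (fun i => (0, Pi.single i 1, 0)) (by
      intro v hv
      funext i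
      have := congrFun hv i
      simpa [Matrix.mulVec] using this)
  obtain ⟨p, hpU, hpW⟩ := hW.inter_open_nonempty _ (hU.preimage hemb) ⟨fun i => (e i).2, by
    change emb _ ∈ U
    have : emb (fun i => (e i).2) = e := funext fun i => Prod.ext (he0 i).symm rfl
    rwa [this]⟩
  set A : Matrix (Fin 6) (Fin 6) ℝ := Matrix.of fun i => (p i).2.1 with hA
  have hAu : IsUnit A := Matrix.mulVec_injective_iff_isUnit.1
    (LinearMap.ker_eq_bot.1 (LinearMap.ker_eq_bot'.2 (hWi p hpW)))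
  have hAd : IsUnit A.det := (Matrix.isUnit_iff_isUnit_det A).1 hAu
  let tup : (Fin 6 → X2) × (Fin 6 → Y6) → Fin 6 → EE :=
    fun q i => ∑ j, A i j • chart q.1 q.2 j
  have htup : Continuous tup := by
    simp only [tup, chart]
    fun_prop
  obtain ⟨W', hW', hW'i⟩ := osc_dense
  obtain ⟨⟨C, R⟩, hqU, hqW⟩ := hW'.inter_open_nonempty _ (hU.preimage htup)
    ⟨((A⁻¹ * Matrix.of fun i => (p i).1 : Matrix (Fin 6) (Fin 2) ℝ),
      (A⁻¹ * Matrix.of fun i => (p i).2.2 : Matrix (Fin 6) (Fin 6) ℝ)), by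
      change tup _ ∈ U
      have : tup ((A⁻¹ * Matrix.of fun i => (p i).1 : Matrix (Fin 6) (Fin 2) ℝ),
          (A⁻¹ * Matrix.of fun i => (p i).2.2 : Matrix (Fin 6) (Fin 6) ℝ)) = emb p := by
        funext i
        have e1 := Matrix.mul_nonsing_inv_cancel_left A (Matrix.of fun i => (p i).1) hAd
        have e2 := Matrix.mul_nonsing_inv_cancel_left A (Matrix.of fun i => (p i).2.2) hAd
        refine Prod.ext ?_ (Prod.ext ?_ (Prod.ext ?_ ?_))
        · simp [tup, emb, chart, Prod.fst_sum]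
        · funext c
          have := congrFun (congrFun e1 i) c
          rw [Matrix.mul_apply] at this
          simpa [tup, emb, chart, Prod.fst_sum, Prod.snd_sum] using this
        · funext c
          simp [tup, emb, chart, Prod.fst_sum, Prod.snd_sum, Pi.single_apply, hA]
        · funext c
          have := congrFun (congrFun e2 i) c
          rw [Matrix.mul_apply] at this
          simpa [tup, emb, chart, Prod.fst_sum, Prod.snd_sum] using this
      rw [this]; exact hpU⟩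
  set e' := tup (C, R) with he'
  have e0 : ∀ i, (e' i).1 = 0 := fun i => by simp [he', tup, chart, Prod.fst_sum]
  have ey : ∀ i, (e' i).2.2.1 = A i := fun i => by
    funext c
    simp [he', tup, chart, Prod.fst_sum, Prod.snd_sum, Pi.single_apply]
  refine ⟨e', hqU, e0, fun J ν hν => ?_⟩
  have h1 := chart_span C R (hW'i _ hqW) ν fun w hw => hν w fun i _ => by
    simp [he', tup, map_sum, hw]
  set c : Y6 := ν.2.2.1 ᵥ* A⁻¹ with hc
  have hcA : c ᵥ* A = ν.2.2.1 := by
    rw [hc, Matrix.vecMul_vecMul, Matrix.nonsing_inv_mul _ hAd, Matrix.vecMul_one]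
  have h2 : ν = ∑ i, c i • e' i := by
    rw [h1, ← hcA]
    simp only [he', tup, Finset.smul_sum, smul_smul]
    rw [Finset.sum_comm]
    refine Finset.sum_congr rfl fun j _ => ?_
    rw [← Finset.sum_smul]
    rfl
  have h3 : ∀ i0, i0 ∉ J → c i0 = 0 := by
    intro i0 hi0
    let f : ℝ × Y6 → Y6 := fun q i => ev (0, q.2) (e' i) - q.1 * (Pi.single i0 1 : Y6) i
    have hz : AnalyticAt ℝ (fun q : ℝ × Y6 => ((0, q.2) : ZZ)) (0, 0) :=
      analyticAt_const.prod analyticAt_snd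
    have := persist f 0 0 (AnalyticAt.pi fun i => by
        simp only [ev_apply]
        exact (((analyticAt_const.add analyticAt_const).add (an_dot analyticAt_const
          analyticAt_snd)).add (an_dot analyticAt_const (an_bil bq hz hz))).sub
          (analyticAt_fst.mul analyticAt_const))
      (by
        funext i
        have : ((0, 0) : ZZ) = 0 := rfl
        simp [f, ev_apply, e0, this])
      (fun y => ⟨A⁻¹ *ᵥ y, fun i => (e' i).2.2.2 ⬝ᵥ bq (0, A⁻¹ *ᵥ y) (0, A⁻¹ *ᵥ y), fun t => by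
        funext i
        have e1 : ((0, 0 + t • A⁻¹ *ᵥ y) : ZZ) = t • (0, A⁻¹ *ᵥ y) := by simp
        have e2 : A i ⬝ᵥ A⁻¹ *ᵥ y = y i := by
          have : A *ᵥ (A⁻¹ *ᵥ y) = y := by
            rw [Matrix.mulVec_mulVec, Matrix.mul_nonsing_inv _ hAd, Matrix.one_mulVec]
          exact congrFun this i
        simp only [f, e1]
        simp only [ev_apply, e0, ey, map_smul, LinearMap.smul_apply, dotProduct_smul,
          Prod.smul_fst, Prod.smul_snd, e2, smul_eq_mul, Pi.add_apply, Pi.smul_apply,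
          dotProduct_zero]
        ring⟩) univ univ_mem
    obtain ⟨t, ⟨y, -, hy⟩, ht⟩ :=
      ((this.filter_mono (nhdsWithin_le_nhds (s := {0}ᶜ))).and self_mem_nhdsWithin).exists
    have hy' : ∀ i, ev (0, y) (e' i) = t * (Pi.single i0 1 : Y6) i := fun i =>
      sub_eq_zero.1 (congrFun hy i)
    have h4 := hν (0, y) fun i hi => by
      rw [hy', Pi.single_eq_of_ne (fun h : i = i0 => hi0 (h ▸ hi)), mul_zero]
    rw [h2, map_sum] at h4
    simp only [map_smul, hy', smul_eq_mul, Pi.single_apply, mul_ite, mul_one, mul_zero,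
      Finset.sum_ite_eq', Finset.mem_univ, if_true] at h4
    exact (mul_eq_zero.1 h4).resolve_right ht
  rw [h2]
  refine Submodule.sum_mem _ fun i _ => ?_
  by_cases hi : i ∈ J
  · exact Submodule.smul_mem _ _ (Submodule.subset_span ⟨i, hi, rfl⟩)
  · simp [h3 i hi]

end Pool.Agent.Work.MP_d1ad45_an
end

-- merged part: Pool.Agent.Work.MP_d1ad45_an.Spin
section
/-!
Traceless Hermitian four by four matrices are skew forms on `ℝ^6`, and planes in `ℝ^6` give
rank two projections.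
-/

namespace Pool.Agent.Work.MP_d1ad45_an

open Filter Topology Set Module Matrix

theorem f4 {motive : Fin 4 → Prop} (h0 : motive 0) (h1 : motive 1) (h2 : motive 2)
    (h3 : motive 3) (i : Fin 4) : motive i := by
  fin_cases i <;> assumption

def gf (p : Fin 6 → Fin 6 → ℝ) : VV :=
  ![![p 0 1 + p 2 3 + p 4 5,
      p 2 4 - p 2 5 - p 3 4 - p 3 5,
      -p 0 4 + p 0 5 + p 1 4 + p 1 5,
      p 0 2 - p 0 3 - p 1 2 - p 1 3],
    ![-p 2 4 - p 2 5 - p 3 4 + p 3 5,
      p 0 1 - p 2 3 - p 4 5,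
      p 0 2 + p 0 3 - p 1 2 + p 1 3,
      p 0 4 + p 0 5 - p 1 4 + p 1 5],
    ![p 0 4 + p 0 5 + p 1 4 - p 1 5,
      -p 0 2 + p 0 3 - p 1 2 - p 1 3,
      -p 0 1 + p 2 3 - p 4 5,
      p 2 4 + p 2 5 - p 3 4 + p 3 5],
    ![-p 0 2 - p 0 3 - p 1 2 + p 1 3,
      -p 0 4 + p 0 5 - p 1 4 - p 1 5,
      -p 2 4 + p 2 5 - p 3 4 - p 3 5,
      -p 0 1 - p 2 3 + p 4 5]]

theorem g00 (p : Fin 6 → Fin 6 → ℝ) : gf p 0 0 = p 0 1 + p 2 3 + p 4 5 := rfl
theorem g01 (p : Fin 6 → Fin 6 → ℝ) : gf p 0 1 = p 2 4 - p 2 5 - p 3 4 - p 3 5 := rfl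
theorem g02 (p : Fin 6 → Fin 6 → ℝ) : gf p 0 2 = -p 0 4 + p 0 5 + p 1 4 + p 1 5 := rfl
theorem g03 (p : Fin 6 → Fin 6 → ℝ) : gf p 0 3 = p 0 2 - p 0 3 - p 1 2 - p 1 3 := rfl
theorem g10 (p : Fin 6 → Fin 6 → ℝ) : gf p 1 0 = -p 2 4 - p 2 5 - p 3 4 + p 3 5 := rfl
theorem g11 (p : Fin 6 → Fin 6 → ℝ) : gf p 1 1 = p 0 1 - p 2 3 - p 4 5 := rfl
theorem g12 (p : Fin 6 → Fin 6 → ℝ) : gf p 1 2 = p 0 2 + p 0 3 - p 1 2 + p 1 3 := rfl
theorem g13 (p : Fin 6 → Fin 6 → ℝ) : gf p 1 3 = p 0 4 + p 0 5 - p 1 4 + p 1 5 := rfl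
theorem g20 (p : Fin 6 → Fin 6 → ℝ) : gf p 2 0 = p 0 4 + p 0 5 + p 1 4 - p 1 5 := rfl
theorem g21 (p : Fin 6 → Fin 6 → ℝ) : gf p 2 1 = -p 0 2 + p 0 3 - p 1 2 - p 1 3 := rfl
theorem g22 (p : Fin 6 → Fin 6 → ℝ) : gf p 2 2 = -p 0 1 + p 2 3 - p 4 5 := rfl
theorem g23 (p : Fin 6 → Fin 6 → ℝ) : gf p 2 3 = p 2 4 + p 2 5 - p 3 4 + p 3 5 := rfl
theorem g30 (p : Fin 6 → Fin 6 → ℝ) : gf p 3 0 = -p 0 2 - p 0 3 - p 1 2 + p 1 3 := rfl
theorem g31 (p : Fin 6 → Fin 6 → ℝ) : gf p 3 1 = -p 0 4 + p 0 5 - p 1 4 - p 1 5 := rfl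
theorem g32 (p : Fin 6 → Fin 6 → ℝ) : gf p 3 2 = -p 2 4 + p 2 5 - p 3 4 - p 3 5 := rfl
theorem g33 (p : Fin 6 → Fin 6 → ℝ) : gf p 3 3 = -p 0 1 - p 2 3 + p 4 5 := rfl

def gl : (Fin 6 → Fin 6 → ℝ) →ₗ[ℝ] VV where
  toFun := gf
  map_add' p q := by
    funext i j
    induction i using f4 <;> induction j using f4 <;>
      simp only [g00, g01, g02, g03, g10, g11, g12, g13,
      g20, g21, g22, g23, g30, g31, g32, g33, Pi.add_apply] <;> ring
  map_smul' p q := by
    funext i j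
    induction i using f4 <;> induction j using f4 <;>
      simp only [g00, g01, g02, g03, g10, g11, g12, g13,
      g20, g21, g22, g23, g30, g31, g32, g33, Pi.smul_apply, smul_eq_mul, RingHom.id_apply] <;> ring

def pl : Y6 →ₗ[ℝ] Y6 →ₗ[ℝ] (Fin 6 → Fin 6 → ℝ) :=
  LinearMap.mk₂ ℝ (fun u v a b => u a * v b - u b * v a)
    (fun _ _ _ => by ext i j; simp; ring) (fun _ _ _ => by ext i j; simp; ring)
    (fun _ _ _ => by ext i j; simp; ring) (fun _ _ _ => by ext i j; simp; ring)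

def mm : Y6 →ₗ[ℝ] Y6 →ₗ[ℝ] VV := pl.compr₂ gl

theorem mm_apply (u v : Y6) : mm u v = gf fun a b => u a * v b - u b * v a := rfl

theorem mm_skew (u v : Y6) : mm u v = -mm v u := by
  have : pl u v = -pl v u := by
    ext a b
    change u a * v b - u b * v a = -(v a * u b - v b * u a)
    ring
  change gl (pl u v) = -gl (pl v u)
  rw [this, map_neg]

theorem mm_self (u : Y6) : mm u u = 0 := by
  have : pl u u = 0 := by
    ext a b
    change u a * u b - u b * u a = 0
    ring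
  change gl (pl u u) = 0
  rw [this, map_zero]

theorem mm_tr (u v : Y6) : dot idV (mm u v) = 0 := by
  simp only [dot_idV, Fin.sum_univ_four, mm_apply, g00, g11, g22, g33]; ring

def del (u v : Y6) : ℝ := (u ⬝ᵥ u) * (v ⬝ᵥ v) - (u ⬝ᵥ v) ^ 2

theorem mm_sq (u v : Y6) : Hm (mm u v) * Hm (mm u v) = del u v • (1 : M4) := by
  rw [← Hm_idV, ← map_smul]
  ext i j
  apply Complex.ext <;>
    simp only [Matrix.mul_apply, Fin.sum_univ_four, Complex.add_re, Complex.add_im, Complex.mul_re,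
      Complex.mul_im, Hm_re, Hm_im, Pi.smul_apply, smul_eq_mul, idV, mm_apply] <;>
    induction i using f4 <;> induction j using f4 <;>
    simp only [g00, g01, g02, g03, g10, g11, g12, g13,
      g20, g21, g22, g23, g30, g31, g32, g33, del, dotProduct, Fin.sum_univ_six, Fin.reduceEq, if_true, if_false] <;>
    ring

theorem mm_dot (u v : Y6) : dot (mm u v) (mm u v) = 4 * del u v := by
  simp only [dot_apply, Fin.sum_univ_four, mm_apply, del, dotProduct, Fin.sum_univ_six,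
      g00, g01, g02, g03, g10, g11, g12, g13,
      g20, g21, g22, g23, g30, g31, g32, g33]
  ring

theorem dot_self_pos {h : VV} (h0 : h ≠ 0) : 0 < dot h h := by
  rw [dot_apply]
  have h2 : 0 ≤ ∑ i, ∑ j, h i j * h i j :=
    Finset.sum_nonneg fun _ _ => Finset.sum_nonneg fun _ _ => mul_self_nonneg _
  refine h2.lt_of_ne fun h3 => h0 ?_
  ext i j
  have h4 := (Finset.sum_eq_zero_iff_of_nonneg fun _ _ =>
    Finset.sum_nonneg fun _ _ => mul_self_nonneg _).1 h3.symm i (Finset.mem_univ i)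
  have h5 := (Finset.sum_eq_zero_iff_of_nonneg fun _ _ => mul_self_nonneg _).1 h4 j
    (Finset.mem_univ j)
  exact mul_self_eq_zero.1 h5

theorem del_pos {u v : Y6} (h : mm u v ≠ 0) : 0 < del u v := by
  have h1 := mm_dot u v
  have h2 := dot_self_pos h
  linarith

theorem mm_inj (h : VV) (h0 : dot idV h = 0) (h1 : ∀ u v, dot h (mm u v) = 0) : h = 0 := by
  have h2 : ∀ a b : Fin 6, a < b → dot h (mm (Pi.single a 1) (Pi.single b 1)) = 0 :=
    fun a b _ => h1 _ _
  simp only [Fin.forall_fin_succ] at h2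
  simp [dot_apply, Fin.sum_univ_four, mm_apply, Pi.single_apply,
      g00, g01, g02, g03, g10, g11, g12, g13,
      g20, g21, g22, g23, g30, g31, g32, g33] at h2
  simp only [dot_idV, Fin.sum_univ_four] at h0
  obtain ⟨⟨a1, a2, a3, a4, a5⟩, ⟨b2, b3, b4, b5⟩, ⟨c3, c4, c5⟩, ⟨d4, d5⟩, e5⟩ := h2
  ext i j
  induction i using f4 <;> induction j using f4 <;> simp only [Pi.zero_apply] <;> linarith only [h0, a1, c3, e5, c4, c5, d4, d5, a4, a5, b4, b5, a2, a3, b2, b3]

theorem spin_proj (u v : Y6) (s : ℝ) (hs : s ^ 2 * del u v = 1) :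
    Hm ((1 / 2 : ℝ) • (idV + s • mm u v)) * Hm ((1 / 2 : ℝ) • (idV + s • mm u v)) =
      Hm ((1 / 2 : ℝ) • (idV + s • mm u v)) ∧
      dot idV ((1 / 2 : ℝ) • (idV + s • mm u v)) = (2 : ℕ) := by
  constructor
  · simp only [map_smul, map_add, Hm_idV, Matrix.smul_mul, Matrix.mul_smul, Matrix.add_mul,
      Matrix.mul_add, Matrix.one_mul, Matrix.mul_one, mm_sq]
    match_scalars
    · linear_combination (1 / 4 : ℝ) * hs
    · ring
  · simp only [map_smul, map_add, mm_tr]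
    simp [dot_idV, idV]
    norm_num

theorem exists_plane (K : Fin 6 → VV) :
    ∃ u v : Y6, u ≠ 0 ∧ v ≠ 0 ∧ u ⬝ᵥ v = 0 ∧ ∀ i, dot (K i) (mm u v) = 0 := by
  let e : Fin 3 → Y6 := fun i => Pi.single (Fin.castLE (by norm_num) i) 1
  let F : Y6 → Y6 → Fin 7 → ℝ := fun u v => Fin.cons (u ⬝ᵥ v) fun i => dot (K i) (mm u v)
  obtain ⟨l, v, hl, hv, h⟩ := hopf_stiefel fun i r c => F (e i) (Pi.single c 1) r
  have hv' : v = ∑ c, v c • (Pi.single c 1 : Y6) := by
    funext j; simp [Pi.single_apply]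
  refine ⟨∑ i, l i • e i, v, ?_, hv, ?_, fun r => ?_⟩
  · intro h0
    apply hl
    funext i
    have := congrFun h0 (Fin.castLE (by norm_num) i)
    fin_cases i <;> simpa [e, Fin.sum_univ_three] using this
  · rw [← h 0]
    conv_lhs => rw [hv']
    simp only [F, Fin.cons_zero, sum_dotProduct, dotProduct_sum, smul_dotProduct,
      dotProduct_smul, smul_eq_mul]
    rw [Finset.sum_comm]
    simp only [Finset.mul_sum]
    exact Finset.sum_congr rfl fun _ _ => Finset.sum_congr rfl fun _ _ => by ring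
  · rw [← h r.succ]
    conv_lhs => rw [hv']
    simp only [F, Fin.cons_succ, map_sum, map_smul, LinearMap.sum_apply, LinearMap.smul_apply,
      smul_eq_mul]
    rw [Finset.sum_comm]
    simp only [Finset.mul_sum]
    exact Finset.sum_congr rfl fun _ _ => Finset.sum_congr rfl fun _ _ => by ring

theorem exists_frame {u v : Y6} (hu : u ≠ 0) (hv : v ≠ 0) (huv : u ⬝ᵥ v = 0) :
    ∃ g : Basis (Fin 6) ℝ Y6, g 4 = u ∧ g 5 = v := by
  have h2 : LinearIndependent ℝ ![u, v] := by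
    rw [LinearIndependent.pair_iff]
    intro s t h
    have a := congrArg (u ⬝ᵥ ·) h
    have b := congrArg (· ⬝ᵥ v) h
    simp only [dotProduct_add, add_dotProduct, dotProduct_smul, smul_dotProduct, huv, smul_eq_mul,
      mul_zero, add_zero, zero_add, dotProduct_zero, zero_dotProduct, mul_eq_zero,
      dotProduct_self_eq_zero] at a b
    exact ⟨a.resolve_right hu, b.resolve_right hv⟩
  obtain ⟨a, h3⟩ := exists_linearIndependent_cons_of_lt_finrank h2 (by simp)
  obtain ⟨b, h4⟩ := exists_linearIndependent_cons_of_lt_finrank h3 (by simp)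
  obtain ⟨c, h5⟩ := exists_linearIndependent_cons_of_lt_finrank h4 (by simp)
  obtain ⟨d, h6⟩ := exists_linearIndependent_cons_of_lt_finrank h5 (by simp)
  refine ⟨basisOfLinearIndependentOfCardEqFinrank h6 (by simp), ?_, ?_⟩ <;>
    rw [coe_basisOfLinearIndependentOfCardEqFinrank] <;> rfl

noncomputable def psi (g : Fin 6 → Y6) : VV →ₗ[ℝ] ℝ × EE where
  toFun h := (dot idV h, dot h (mm (g 4) (g 5)), ![dot h (mm (g 0) (g 5)), dot h (mm (g 4) (g 0))],
    ![dot h (mm (g 1) (g 5)), dot h (mm (g 2) (g 5)), dot h (mm (g 3) (g 5)),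
      dot h (mm (g 4) (g 1)), dot h (mm (g 4) (g 2)), dot h (mm (g 4) (g 3))],
    ![dot h (mm (g 0) (g 1)), dot h (mm (g 0) (g 2)), dot h (mm (g 0) (g 3)),
      dot h (mm (g 1) (g 2)), dot h (mm (g 1) (g 3)), dot h (mm (g 2) (g 3))])
  map_add' _ _ := by simp
  map_smul' _ _ := by simp

def uw (g : Fin 6 → Y6) (w : ZZ) : Y6 :=
  g 4 + w.1 0 • g 0 + w.2 0 • g 1 + w.2 1 • g 2 + w.2 2 • g 3

def vw (g : Fin 6 → Y6) (w : ZZ) : Y6 :=
  g 5 + w.1 1 • g 0 + w.2 3 • g 1 + w.2 4 • g 2 + w.2 5 • g 3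

theorem ev_psi (g : Fin 6 → Y6) (h : VV) (w : ZZ) :
    ev w (psi g h).2 = dot h (mm (uw g w) (vw g w)) := by
  simp only [uw, vw, map_add, map_smul, LinearMap.add_apply, LinearMap.smul_apply, mm_self,
    mm_skew (g 1) (g 0), mm_skew (g 2) (g 0), mm_skew (g 3) (g 0), mm_skew (g 2) (g 1),
    mm_skew (g 3) (g 1), mm_skew (g 3) (g 2), map_neg, map_zero, smul_eq_mul]
  simp [ev_apply, psi, bq_apply, dotProduct, Fin.sum_univ_six]
  ring

theorem psi_inj (g : Basis (Fin 6) ℝ Y6) : Function.Injective (psi g) := by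
  refine LinearMap.ker_eq_bot.1 (LinearMap.ker_eq_bot'.2 fun h hh => ?_)
  simp only [psi, LinearMap.coe_mk, AddHom.coe_mk, Prod.mk_eq_zero, Matrix.cons_eq_zero_iff]
    at hh
  obtain ⟨h0, h45, ⟨h05, h40, -⟩, ⟨h15, h25, h35, h41, h42, h43, -⟩,
    ⟨h01, h02, h03, h12, h13, h23, -⟩⟩ := hh
  have sk : ∀ a b, dot h (mm (g a) (g b)) = 0 → dot h (mm (g b) (g a)) = 0 := by
    intro a b e
    rw [mm_skew, map_neg, e, neg_zero]
  have h0' : ∀ a, dot h (mm (g a) (g a)) = 0 := fun a => by rw [mm_self, map_zero]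
  have h1 : ∀ a b, dot h (mm (g a) (g b)) = 0 := by
    have h04 := sk _ _ h40
    have h14 := sk _ _ h41
    have h24 := sk _ _ h42
    have h34 := sk _ _ h43
    have hle : ∀ a b : Fin 6, a < b → dot h (mm (g a) (g b)) = 0 := by
      simp only [Fin.forall_fin_succ]
      simp [h01, h02, h03, h04, h05, h12, h13, h14, h15, h23, h24, h25, h34, h35, h45]
    intro a b
    rcases lt_trichotomy a b with h | rfl | h
    · exact hle a b h
    · exact h0' a
    · exact sk _ _ (hle b a h)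
  have h2 : mm.compr₂ (dot h) = 0 := g.ext fun a => g.ext fun b => h1 a b
  exact mm_inj h h0 fun u v => LinearMap.congr_fun₂ h2 u v

/-- For a dense set of at most six traceless equations, the planes solving them span the
annihilator. -/
theorem spin_dense {k : ℕ} (hk : k ≤ 6) (K : Fin k → VV) (hK : ∀ i, dot idV (K i) = 0)
    (N : Set (Fin k → VV)) (hN : IsOpen N) (hKN : K ∈ N) :
    ∃ K' ∈ N, (∀ i, dot idV (K' i) = 0) ∧ (∃ u v, mm u v ≠ 0 ∧ ∀ i, dot (K' i) (mm u v) = 0) ∧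
      ∀ h, dot idV h = 0 → (∀ u v, (∀ i, dot (K' i) (mm u v) = 0) → dot h (mm u v) = 0) →
        h ∈ Submodule.span ℝ (Set.range K') := by
  let j : Fin k → Fin 6 := Fin.castLE hk
  let K6 : Fin 6 → VV := Function.extend j K 0
  have hK6 : ∀ i, K6 (j i) = K i := fun i => (Fin.castLE_injective hk).extend_apply _ _ _
  obtain ⟨u, v, hu, hv, huv, h6⟩ := exists_plane K6
  obtain ⟨g, hg4, hg5⟩ := exists_frame hu hv huv
  let ψ := LinearMap.linearEquivOfInjective (psi g) (psi_inj g)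
    (by simp [Module.finrank_pi_fintype])
  let Θ : EE →ₗ[ℝ] VV := ψ.symm.toLinearMap ∘ₗ LinearMap.inr ℝ ℝ EE
  have hΘ : ∀ e, psi g (Θ e) = (0, e) := fun e => ψ.apply_symm_apply _
  have hΘ1 : ∀ e, dot idV (Θ e) = 0 := fun e => congrArg Prod.fst (hΘ e)
  have hΘ2 : ∀ e w, dot (Θ e) (mm (uw g w) (vw g w)) = ev w e := fun e w => by
    rw [← ev_psi, hΘ]
  have hΘ3 : ∀ h, dot idV h = 0 → Θ (psi g h).2 = h := fun h hh =>
    psi_inj g (by rw [hΘ]; exact Prod.ext hh.symm rfl)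
  have hc : Continuous fun (e : Fin 6 → EE) (i : Fin k) => Θ (e (j i)) :=
    continuous_pi fun i => Θ.continuous_of_finiteDimensional.comp (continuous_apply _)
  obtain ⟨e', he', he0, hsp⟩ := chart_dense _ (hN.preimage hc) (fun i => (psi g (K6 i)).2) (by
      change (fun i => Θ (psi g (K6 (j i))).2) ∈ N
      simpa only [hK6, hΘ3 _ (hK _)] using hKN)
    (fun i => by
      change dot (K6 i) (mm (g 4) (g 5)) = 0
      rw [hg4, hg5, h6])
  refine ⟨fun i => Θ (e' (j i)), he', fun i => hΘ1 _, ⟨uw g 0, vw g 0, fun h0 => ?_, fun i => ?_⟩,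
    fun h hh hall => ?_⟩
  · have := hΘ2 (1, 0) 0
    rw [h0] at this
    simp [ev_apply] at this
  · rw [hΘ2]; simp [ev_apply, he0]
  · have := hsp (Set.range j) (psi g h).2 fun w hw => by
      rw [ev_psi]
      exact hall _ _ fun i => by rw [hΘ2]; exact hw _ ⟨i, rfl⟩
    have h2 := Submodule.mem_map_of_mem (f := Θ) this
    rwa [hΘ3 h hh, Submodule.map_span, ← Set.range_comp, ← Set.range_comp] at h2

end Pool.Agent.Work.MP_d1ad45_an
end

-- merged part: Pool.Agent.Work.MP_d1ad45_an.Generic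
section
/-!
A family of vectors doing phase retrieval can be moved to a generic position containing the
standard basis.
-/

namespace Pool.Agent.Work.MP_d1ad45_an

open Filter Topology Set Module Matrix

def Ind {ι : Type*} (φ : ι → XX) : Prop := LinearIndependent ℝ fun n => rho (φ n) (φ n)

def CC {ι : Type*} (φ : ι → XX) (n : ι) : Prop :=
  ∀ h, (∀ m, dot h (rho (φ m) (φ m)) = 0) → (∀ z, dot h (rho (φ n) z) = 0) → h = 0

theorem ind_open {ι : Type*} [Fintype ι] : IsOpen {φ : ι → XX | Ind φ} :=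
  isOpen_setOfPred_linearIndependent.preimage (f := fun (φ : ι → XX) n => rho (φ n) (φ n))
    (continuous_pi fun n => continuous_iff_continuousAt.2 fun _ =>
      (an_bil rho (an_apply analyticAt_id n) (an_apply analyticAt_id n)).continuousAt)

theorem ip_mulVec (T : M4) (x y : XX) : ip (T *ᵥ x) y = ip x (Tᴴ *ᵥ y) := by
  rw [ip, ip, Matrix.star_mulVec, Matrix.dotProduct_mulVec]

theorem tr_dot (T : M4) (h : VV) :
    ∃ h', ∀ x y, dot h' (rho x y) = dot h (rho (T *ᵥ x) (T *ᵥ y)) := by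
  refine ⟨cm (Tᴴ * Hm h * T), fun x y => ?_⟩
  rw [dot_rho, dot_rho, Hm_cm (Matrix.isHermitian_conjTranspose_mul_mul T (Hm_herm h)),
    ip_mulVec, Matrix.mulVec_mulVec, Matrix.mulVec_mulVec]

theorem tr_dot' {T S : M4} (hS : S * T = 1) (h : VV) :
    ∃ h', ∀ x y, dot h' (rho (T *ᵥ x) (T *ᵥ y)) = dot h (rho x y) := by
  obtain ⟨h', e⟩ := tr_dot S h
  exact ⟨h', fun x y => by simp only [e, Matrix.mulVec_mulVec, hS, Matrix.one_mulVec]⟩

theorem good_tr {ι : Type*} {φ : ι → XX} (h : Good φ) {T S : M4} (hS : T * S = 1) :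
    Good fun n => T *ᵥ φ n := by
  intro x y hxy
  obtain ⟨c, hc, e⟩ := h (Tᴴ *ᵥ x) (Tᴴ *ᵥ y) fun n => by
    have := hxy n
    simp only [dot_rho_self, ip_mulVec] at this ⊢
    exact this
  refine ⟨c, hc, ?_⟩
  have := congrArg (Sᴴ *ᵥ ·) e
  simpa only [Matrix.mulVec_smul, Matrix.mulVec_mulVec, ← Matrix.conjTranspose_mul, hS,
    Matrix.conjTranspose_one, Matrix.one_mulVec] using this

theorem ind_tr {ι : Type*} [Fintype ι] {φ : ι → XX} (h : Ind φ) {T S : M4} (hS : S * T = 1) :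
    Ind fun n => T *ᵥ φ n := by
  rw [Ind, Fintype.linearIndependent_iff] at h ⊢
  intro c hc
  apply h
  by_contra h0
  obtain ⟨h', e⟩ := tr_dot' hS (∑ i, c i • rho (φ i) (φ i))
  have h1 := dot_self_pos h0
  rw [map_sum (dot _)] at h1
  generalize (∑ i, c i • rho (φ i) (φ i)) = k at e h1
  have h2 := congrArg (dot h') hc
  simp only [map_sum, map_smul, e, map_zero] at h2
  simp only [map_smul] at h1
  exact h1.ne' h2

theorem cc_tr {ι : Type*} {φ : ι → XX} {n : ι} (h : CC φ n) {T S : M4} (hS : T * S = 1) :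
    CC (fun n => T *ᵥ φ n) n := by
  intro k h1 h2
  obtain ⟨k', e⟩ := tr_dot T k
  have := h k' (fun m => by rw [e, h1]) (fun z => by rw [e, h2])
  refine dot_sep k fun x => ?_
  have e' := e (S *ᵥ x) (S *ᵥ x)
  rw [Matrix.mulVec_mulVec, hS, Matrix.one_mulVec, this] at e'
  simpa using e'.symm

noncomputable def exV : Fin 10 → XX :=
  ![![1, 0, 0, 0], ![0, 1, 0, 0], ![0, 0, 1, 0], ![0, 0, 0, 1], ![0, 1, 1, 0],
    ![0, 1, Complex.I, 0], ![0, 1, 0, 1], ![0, 1, 0, Complex.I], ![0, 0, 1, 1],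
    ![0, 0, 1, Complex.I]]

theorem exV_cc (h : VV) (h1 : ∀ k, dot h (rho (exV k) (exV k)) = 0)
    (h2 : ∀ j, dot h (rho (exV 0) (Pi.single j 1)) = 0)
    (h3 : ∀ j, dot h (rho (exV 0) (Pi.single j Complex.I)) = 0) : h = 0 := by
  simp only [Fin.forall_fin_succ] at h1 h2 h3
  simp [exV, dot_apply, rho_apply, Fin.sum_univ_four] at h1 h2 h3
  obtain ⟨a0, a1, a2, a3, a4, a5, a6, a7, a8, a9⟩ := h1
  obtain ⟨b0, b1, b2, b3⟩ := h2
  obtain ⟨c1, c2, c3⟩ := h3
  ext i j
  induction i using f4 <;> induction j using f4 <;> simp only [Pi.zero_apply] <;> linarith only [a0, b1, c1, b2, c2, b3, c3, a1, a4, a5, a6, a7, a2, a8, a9, a3]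

theorem cc_dense {ι : Type*} [Fintype ι] (hι : 10 ≤ Fintype.card ι) (n : ι) :
    ∃ W : Set (ι → XX), IsOpen W ∧ Dense W ∧ ∀ φ ∈ W, CC φ n := by
  classical
  obtain ⟨f0⟩ : Nonempty (Fin 10 ↪ ι) := Function.Embedding.nonempty_of_card_le (by simpa)
  let f : Fin 10 ↪ ι := f0.trans (Equiv.swap (f0 0) n).toEmbedding
  have hf : f 0 = n := by simp [f]
  let A : (ι → XX) → VV →ₗ[ℝ] (ι → ℝ) × (Fin 4 → ℝ) × (Fin 4 → ℝ) := fun φ =>
    (LinearMap.pi fun m => dot.flip (rho (φ m) (φ m))).prod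
      ((LinearMap.pi fun j => dot.flip (rho (φ n) (Pi.single j 1))).prod
        (LinearMap.pi fun j => dot.flip (rho (φ n) (Pi.single j Complex.I))))
  obtain ⟨W, h1, h2, h3⟩ := dense_inj A (fun h x =>
      (AnalyticAt.pi fun m => an_meas analyticAt_const (an_apply analyticAt_id m)
        (an_apply analyticAt_id m)).prod
      ((AnalyticAt.pi fun j => an_meas analyticAt_const (an_apply analyticAt_id n)
        analyticAt_const).prod
      (AnalyticAt.pi fun j => an_meas analyticAt_const (an_apply analyticAt_id n)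
        analyticAt_const)))
    (Function.extend f exV 0) (by
      intro h hh
      have e : ∀ k, Function.extend f exV 0 (f k) = exV k := fun k => f.injective.extend_apply _ _ _
      refine exV_cc h (fun k => ?_) (fun j => ?_) (fun j => ?_)
      · rw [← e]; exact congrFun (congrArg Prod.fst hh) (f k)
      · rw [← e, hf]; exact congrFun (congrArg (fun p => p.2.1) hh) j
      · rw [← e, hf]; exact congrFun (congrArg (fun p => p.2.2) hh) j)
  exact ⟨W, h1, h2, fun φ hφ h a b => h3 φ hφ h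
    (Prod.ext (funext a) (Prod.ext (funext fun _ => b _) (funext fun _ => b _)))⟩

theorem basis_dense {ι : Type*} [Fintype ι] (e : Fin 4 ↪ ι) :
    ∃ W : Set (ι → XX), IsOpen W ∧ Dense W ∧
      ∀ φ ∈ W, IsUnit (Matrix.of fun i j => φ (e j) i : M4) := by
  obtain ⟨W, h1, h2, h3⟩ := dense_inj (fun φ : ι → XX =>
      (Matrix.mulVecLin (Matrix.of fun i j => φ (e j) i : M4)).restrictScalars ℝ)
    (fun v x => AnalyticAt.pi fun i => by
      change AnalyticAt ℝ (fun φ : ι → XX => ∑ j, φ (e j) i * v j) x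
      exact Finset.analyticAt_fun_sum _ fun j _ =>
        (an_apply (an_apply analyticAt_id (e j)) i).mul analyticAt_const)
    (Function.extend e (fun j => Pi.single j 1) 0) (by
      intro v hv
      funext i
      have := congrFun hv i
      simpa [Matrix.mulVec, dotProduct, e.injective.extend_apply, Pi.single_apply] using this)
  exact ⟨W, h1, h2, fun φ hφ => Matrix.mulVec_injective_iff_isUnit.1
    (LinearMap.ker_eq_bot.1 (LinearMap.ker_eq_bot'.2 (h3 φ hφ)) :
      Function.Injective (Matrix.mulVecLin _))⟩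

theorem generic {ι : Type*} [Fintype ι] {φ : ι → XX} (hg : Good φ) (hi : Ind φ) :
    ∃ ψ : ι → XX, Good ψ ∧ Ind ψ ∧ (∀ n, CC ψ n) ∧
      ∀ h, (∀ n, dot h (rho (ψ n) (ψ n)) = 0) → dot idV h = 0 := by
  have hc := good_card hg
  obtain ⟨e⟩ : Nonempty (Fin 4 ↪ ι) := Function.Embedding.nonempty_of_card_le (by simp; omega)
  choose W hWo hWd hW using cc_dense hc
  obtain ⟨W', hW'o, hW'd, hW'⟩ := basis_dense e
  obtain ⟨χ, ⟨hχg, hχi⟩, hχW, hχW'⟩ :=
    ((dense_iInter_of_isOpen hWo hWd).inter_of_isOpen_right hW'd hW'o).inter_open_nonempty _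
      (good_open.inter ind_open) ⟨φ, hg, hi⟩
  set A : M4 := Matrix.of fun i j => χ (e j) i with hA
  have hAd : IsUnit A.det := (Matrix.isUnit_iff_isUnit_det A).1 (hW' χ hχW')
  have h1 := Matrix.nonsing_inv_mul A hAd
  have h2 := Matrix.mul_nonsing_inv A hAd
  refine ⟨fun n => A⁻¹ *ᵥ χ n, good_tr hχg h1, ind_tr hχi h2,
    fun n => cc_tr (hW n χ (Set.mem_iInter.1 hχW n)) h1, fun h hh => ?_⟩
  rw [dot_idV]
  refine Finset.sum_eq_zero fun j _ => ?_
  have e1 : A⁻¹ *ᵥ χ (e j) = Pi.single j 1 := by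
    have : χ (e j) = A *ᵥ Pi.single j 1 := by
      funext i; simp [hA]
    rw [this, Matrix.mulVec_mulVec, h1, Matrix.one_mulVec]
  have : dot h (rho (A⁻¹ *ᵥ χ (e j)) (A⁻¹ *ᵥ χ (e j))) = 0 := hh (e j)
  rw [e1, dot_rho] at this
  simpa [ip, Hm_re] using this

end Pool.Agent.Work.MP_d1ad45_an
end

-- merged part: Pool.Agent.Work.MP_d1ad45_an.Core
section
/-!
From a family of vectors doing phase retrieval in `ℂ^4` to a space of measurements that is
spanned by projections of each rank.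
-/

namespace Pool.Agent.Work.MP_d1ad45_an

open Filter Topology Set Module Matrix

noncomputable def ms {ι : Type*} (φ : ι → XX) : VV →ₗ[ℝ] (ι → ℝ) :=
  LinearMap.pi fun n => dot.flip (rho (φ n) (φ n))

theorem mem_ker_ms {ι : Type*} (φ : ι → XX) (h : VV) :
    h ∈ LinearMap.ker (ms φ) ↔ ∀ n, dot h (rho (φ n) (φ n)) = 0 :=
  ⟨fun e n => congrFun e n, fun e => funext e⟩

theorem finrank_ker_ms {ι : Type*} [Fintype ι] {φ : ι → XX} (hi : Ind φ) :
    finrank ℝ (LinearMap.ker (ms φ)) + Fintype.card ι = 16 := by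
  have h1 := surj_of_dual (ms φ) fun l hl => by
    rw [Ind, Fintype.linearIndependent_iff] at hi
    refine funext (hi l ?_)
    by_contra h0
    have h2 := dot_self_pos h0
    rw [map_sum (dot _)] at h2
    simp only [map_smul] at h2
    exact h2.ne' (hl _)
  have h2 := LinearMap.finrank_range_add_finrank_ker (ms φ)
  rw [LinearMap.range_eq_top.2 h1, finrank_top] at h2
  simp only [Module.finrank_pi_fintype, Module.finrank_self, Finset.sum_const, Finset.card_univ,
    Fintype.card_fin, smul_eq_mul] at h2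
  omega

theorem persist_vec {ι : Type*} [Fintype ι] {φ : ι → XX} (hg : Good φ) (hi : Ind φ)
    (hc : ∀ n, CC φ n) {k : ℕ} (K : Fin k → VV) (hK : LinearIndependent ℝ K)
    (hKφ : ∀ i n, dot (K i) (rho (φ n) (φ n)) = 0) :
    ∀ᶠ K' in 𝓝 K, ∃ χ : ι → XX, Good χ ∧ Ind χ ∧ ∀ i n, dot (K' i) (rho (χ n) (χ n)) = 0 := by
  let f : (Fin k → VV) × (ι → XX) → ι → Fin k → ℝ := fun p n i => dot (p.1 i) (rho (p.2 n) (p.2 n))
  have hs : ∀ n, Function.Surjective
      (LinearMap.pi fun i => dot (K i) ∘ₗ rho (φ n) : XX →ₗ[ℝ] (Fin k → ℝ)) := by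
    intro n
    refine surj_of_dual _ fun l hl => ?_
    rw [Fintype.linearIndependent_iff] at hK
    refine funext (hK l (hc n _ (fun m => ?_) fun z => ?_))
    · simp [map_sum, hKφ]
    · simpa [map_sum] using hl z
  have := persist f K φ
    (AnalyticAt.pi fun n => AnalyticAt.pi fun i => an_meas (an_apply analyticAt_fst i)
      (an_apply analyticAt_snd n) (an_apply analyticAt_snd n))
    (funext fun n => funext fun i => hKφ i n)
    (fun y => by
      choose z hz using fun n => hs n ((1 / 2 : ℝ) • y n)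
      refine ⟨z, fun n i => dot (K i) (rho (z n) (z n)), fun t => ?_⟩
      funext n i
      have e : dot (K i) (rho (φ n) (z n)) = 1 / 2 * y n i := congrFun (hz n) i
      simp only [f, Pi.add_apply, Pi.smul_apply, map_add, map_smul, LinearMap.add_apply,
        LinearMap.smul_apply, rho_comm (z n) (φ n), e, hKφ, smul_eq_mul]
      ring)
    (univ ×ˢ ({φ | Good φ} ∩ {φ | Ind φ}))
    ((isOpen_univ.prod (good_open.inter ind_open)).mem_nhds ⟨trivial, hg, hi⟩)
  filter_upwards [this] with K' ⟨χ, h1, h2⟩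
  exact ⟨χ, h1.2.1, h1.2.2, fun i n => congrFun (congrFun h2 n) i⟩

/-- `p` is an orthogonal projection of rank `d` that annihilates `L`. -/
def IsPr (L : Submodule ℝ VV) (d : ℕ) (p : VV) : Prop :=
  Hm p * Hm p = Hm p ∧ dot idV p = d ∧ ∀ h ∈ L, dot p h = 0

theorem rank_one {x : XX} (hx : x ≠ 0) : ∃ s : ℝ, s ≠ 0 ∧
    Hm (s • rho x x) * Hm (s • rho x x) = Hm (s • rho x x) ∧ dot idV (s • rho x x) = 1 := by
  have h0 : (ip x x).re ≠ 0 := fun h => hx (ip_self_eq_zero h)
  refine ⟨((ip x x).re)⁻¹, inv_ne_zero h0, ?_, ?_⟩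
  · have e : vecMulVec x (star x) * vecMulVec x (star x) = (ip x x).re • vecMulVec x (star x) := by
      rw [Matrix.vecMulVec_mul_vecMulVec, ← ip, ip_self]
      ext i j
      simp [vecMulVec_apply]
      ring
    rw [map_smul, Hm_rho, Matrix.smul_mul, Matrix.mul_smul, e, smul_smul, smul_smul]
    congr 1
    field_simp
  · rw [map_smul, dot_idV_rho, smul_eq_mul, inv_mul_cancel₀ h0]

theorem dot_idV_idV : dot idV idV = 4 := by
  simp [dot_idV, idV]

theorem core {ι : Type*} [Fintype ι] {φ : ι → XX} (hg : Good φ) (hi : Ind φ) :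
    ∃ L : Submodule ℝ VV, finrank ℝ L + Fintype.card ι = 16 ∧
      (∀ x y, rho x x - rho y y ∈ L → ∃ c : ℂ, ‖c‖ = 1 ∧ x = c • y) ∧
      ∀ d, 1 ≤ d → d ≤ 3 → ∀ h, (∀ p, IsPr L d p → dot p h = 0) → h ∈ L := by
  have hcard := good_card hg
  obtain ⟨ψ, hψg, hψi, hψc, hψt⟩ := generic hg hi
  have hk := finrank_ker_ms hψi
  let b := Module.finBasis ℝ (LinearMap.ker (ms ψ))
  let K : Fin (finrank ℝ (LinearMap.ker (ms ψ))) → VV := fun i => b i
  have hK : LinearIndependent ℝ K :=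
    b.linearIndependent.map' (LinearMap.ker (ms ψ)).subtype (Submodule.ker_subtype _)
  have hKψ : ∀ i n, dot (K i) (rho (ψ n) (ψ n)) = 0 := fun i => (mem_ker_ms _ _).1 (b i).2
  obtain ⟨N, hN, hNo, hKN⟩ := eventually_nhds_iff.1
    ((persist_vec hψg hψi hψc K hK hKψ).and hK.eventually)
  obtain ⟨K', hK'N, hK't, ⟨u0, v0, huv0, hK0⟩, hsp⟩ :=
    spin_dense (by omega) K (fun i => hψt _ (hKψ i)) N hNo hKN
  obtain ⟨⟨χ, hχg, hχi, hχK⟩, hK'⟩ := hN K' hK'N
  have hk' := finrank_ker_ms hχi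
  set L := LinearMap.ker (ms χ) with hL
  have hLK : Submodule.span ℝ (Set.range K') = L := by
    refine Submodule.eq_of_le_of_finrank_le ?_ ?_
    · rw [Submodule.span_le]
      rintro _ ⟨i, rfl⟩
      exact (mem_ker_ms _ _).2 (hχK i)
    · rw [finrank_span_eq_card hK', Fintype.card_fin]
      omega
  have hkill : ∀ p, (∀ i, dot p (K' i) = 0) → ∀ h ∈ L, dot p h = 0 := by
    intro p hp h hh
    rw [← hLK] at hh
    have : Submodule.span ℝ (Set.range K') ≤ LinearMap.ker (dot p) := by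
      rw [Submodule.span_le]
      rintro _ ⟨i, rfl⟩
      exact hp i
    exact this hh
  have hLt := hkill idV hK't
  have h1 : ∀ n, ∃ s : ℝ, s ≠ 0 ∧ IsPr L 1 (s • rho (χ n) (χ n)) := by
    intro n
    have hx : χ n ≠ 0 := fun h => hχi.ne_zero n (by simp [h])
    obtain ⟨s, hs, a, b⟩ := rank_one hx
    refine ⟨s, hs, a, by simpa using b, fun h hh => ?_⟩
    rw [map_smul, LinearMap.smul_apply, dot_comm, (mem_ker_ms _ _).1 hh n, smul_zero]
  have h1' : ∀ h, (∀ p, IsPr L 1 p → dot p h = 0) → h ∈ L := by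
    intro h hh
    refine (mem_ker_ms _ _).2 fun n => ?_
    obtain ⟨s, hs, hp⟩ := h1 n
    have := hh _ hp
    rw [map_smul, LinearMap.smul_apply, dot_comm, smul_eq_mul] at this
    exact (mul_eq_zero.1 this).resolve_left hs
  refine ⟨L, hk', fun x y hxy => hχg x y fun n => ?_, fun d hd1 hd3 h hh => ?_⟩
  · have := (mem_ker_ms _ _).1 hxy n
    rw [dot_comm, map_sub] at this
    exact sub_eq_zero.1 this
  interval_cases d
  · exact h1' h hh
  · have h2 : ∀ u v, mm u v ≠ 0 → (∀ i, dot (K' i) (mm u v) = 0) →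
        dot idV h = 0 ∧ dot h (mm u v) = 0 := by
      intro u v huv hKuv
      have hd := del_pos huv
      have hp : ∀ s : ℝ, s ^ 2 * del u v = 1 → dot idV h + s * dot h (mm u v) = 0 := by
        intro s hs
        obtain ⟨a, b⟩ := spin_proj u v s hs
        have := hh _ ⟨a, b, hkill _ fun i => by
          simp only [map_smul, map_add, LinearMap.smul_apply, LinearMap.add_apply, hK't,
            dot_comm (mm u v), hKuv]
          simp⟩
        simp only [map_smul, map_add, LinearMap.smul_apply, LinearMap.add_apply,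
          dot_comm (mm u v), smul_eq_mul] at this
        linarith only [this]
      have hs : (√(del u v))⁻¹ ^ 2 * del u v = 1 := by
        rw [inv_pow, Real.sq_sqrt hd.le, inv_mul_cancel₀ hd.ne']
      have a := hp _ hs
      have b := hp (-(√(del u v))⁻¹) (by rw [neg_sq]; exact hs)
      have c : (√(del u v))⁻¹ * dot h (mm u v) = 0 := by linarith only [a, b]
      exact ⟨by linarith only [a, b], (mul_eq_zero.1 c).resolve_left
        (inv_ne_zero (Real.sqrt_pos.2 hd).ne')⟩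
    rw [← hLK]
    refine hsp h (h2 u0 v0 huv0 hK0).1 fun u v hKuv => ?_
    by_cases huv : mm u v = 0
    · rw [huv, map_zero]
    · exact (h2 u v huv hKuv).2
  · have h3 : h - dot idV h • idV ∈ L := by
      refine h1' _ fun p ⟨a, b, c⟩ => ?_
      have := hh (idV - p) ⟨by
        rw [map_sub, Hm_idV, Matrix.sub_mul, Matrix.mul_sub, Matrix.mul_sub, a]; simp, by
        rw [map_sub, b, dot_idV_idV]; norm_num, fun k hk => by
        rw [map_sub, LinearMap.sub_apply, hLt k hk, c k hk, sub_self]⟩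
      rw [map_sub, LinearMap.sub_apply] at this
      rw [map_sub, map_smul, dot_comm p idV, b, smul_eq_mul]
      push_cast
      linarith only [this]
    have h4 := hLt _ h3
    rw [map_sub, map_smul, dot_idV_idV, smul_eq_mul] at h4
    have h5 : dot idV h = 0 := by linarith only [h4]
    simpa [h5] using h3

theorem good_sub {ι : Type} {φ : ι → XX} (hg : Good φ) :
    ∃ (κ : Type) (a : κ → ι), Function.Injective a ∧ Good (φ ∘ a) ∧ Ind (φ ∘ a) := by
  obtain ⟨κ, a, ha, hsp, hli⟩ := exists_linearIndependent' ℝ fun n => rho (φ n) (φ n)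
  refine ⟨κ, a, ha, fun x y hxy => hg x y fun n => ?_, hli⟩
  have h1 : Submodule.span ℝ (Set.range ((fun n => rho (φ n) (φ n)) ∘ a)) ≤
      LinearMap.ker (dot (rho x x - rho y y)) := by
    rw [Submodule.span_le]
    rintro _ ⟨m, rfl⟩
    change dot _ _ = 0
    rw [dot_comm, map_sub]
    exact sub_eq_zero.2 (hxy m)
  rw [hsp] at h1
  have h2 : dot _ _ = 0 := h1 (Submodule.subset_span ⟨n, rfl⟩)
  rw [dot_comm, map_sub] at h2
  exact sub_eq_zero.1 h2

theorem exists_good : ∃ (N : ℕ) (φ : Fin N → XX), Good φ := by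
  have hg : Good (id : XX → XX) := by
    rw [good_iff]
    intro u v huv h
    by_contra hne
    push Not at hne
    have hu : (ip u u).re ≠ 0 := fun h => hne.1 (ip_self_eq_zero h)
    have hv : (ip v v).re ≠ 0 := fun h => hne.2 (ip_self_eq_zero h)
    have h1 := h u
    rw [id, dot_rho_rho, ip_self] at h1
    simp only [Complex.conj_ofReal, Complex.re_ofReal_mul, mul_eq_zero] at h1
    have h2 : ip u v = 0 := Complex.ext (h1.resolve_left hu) huv
    have h3 : ip v u = 0 := by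
      have : ip v u = star (ip u v) := by rw [ip, ip, Matrix.star_dotProduct]
      rw [this, h2, star_zero]
    have h4 := h (u + v)
    have e1 : ip (u + v) u = ip u u := by rw [ip, star_add, add_dotProduct, ← ip, ← ip, h3, add_zero]
    have e2 : ip (u + v) v = ip v v := by rw [ip, star_add, add_dotProduct, ← ip, ← ip, h2, zero_add]
    rw [id, dot_rho_rho, e1, e2, ip_self u] at h4
    simp only [Complex.conj_ofReal, Complex.re_ofReal_mul, mul_eq_zero] at h4
    exact h4.elim hu hv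
  obtain ⟨κ, a, -, h1, h2⟩ := good_sub hg
  have : Finite κ := LinearIndependent.finite h2
  obtain ⟨N, ⟨e⟩⟩ := Finite.exists_equiv_fin κ
  exact ⟨N, a ∘ e.symm, fun x y h => h1 x y fun n => by simpa using h (e n)⟩

theorem main {ι : Type} [Fintype ι] (φ : ι → XX) (hg : Good φ) (N : ℕ) (hN : Fintype.card ι ≤ N)
    (d : Fin N → ℕ) (hd : ∀ n, 1 ≤ d n ∧ d n ≤ 3) :
    ∃ W : Fin N → Submodule ℂ (EuclideanSpace ℂ (Fin 4)), (∀ n, finrank ℂ (W n) = d n) ∧
      ∀ x y : EuclideanSpace ℂ (Fin 4),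
        (∀ n, ‖(W n).starProjection x‖ = ‖(W n).starProjection y‖) →
        ∃ c : ℂ, ‖c‖ = 1 ∧ x = c • y := by
  obtain ⟨κ, a, ha, hg', hli⟩ := good_sub hg
  have : Fintype κ := Fintype.ofInjective a ha
  have hκ : Fintype.card κ ≤ N := (Fintype.card_le_of_injective a ha).trans hN
  obtain ⟨L, hL, hLg, hLp⟩ := core hg' hli
  have hcard := good_card hg'
  obtain ⟨f, hf, hfL⟩ := greedy L N (fun n => dot '' {p | IsPr L (d n) p}) (fun n => by
      by_contra hne
      have : L = ⊤ := eq_top_iff.2 fun h _ => hLp _ (hd n).1 (hd n).2 h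
        fun p hp => absurd ⟨_, p, hp, rfl⟩ hne
      rw [this, finrank_top] at hL
      simp [Module.finrank_pi_fintype] at hL
      omega)
    (by rintro n _ ⟨p, hp, rfl⟩; exact hp.2.2)
    (fun n h hh => hLp _ (hd n).1 (hd n).2 h fun p hp => hh _ ⟨p, hp, rfl⟩) ⊤ le_top (by
      rw [finrank_top]
      simp [Module.finrank_pi_fintype]
      omega)
  choose p hp hpf using hf
  choose W hW hWp using fun n => exists_subspace (p n) (d n) (hp n).1 (hp n).2.1
  refine ⟨W, hW, fun x y hxy => ?_⟩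
  obtain ⟨c, hc, e⟩ := hLg x.ofLp y.ofLp (hfL _ trivial fun n => by
    rw [← hpf, map_sub, ← hWp, ← hWp, hxy, sub_self])
  exact ⟨c, hc, by ext i; exact congrFun e i⟩

theorem good_of_lines {ι : Type} (W : ι → Submodule ℂ (EuclideanSpace ℂ (Fin 4)))
    (h1 : ∀ n, finrank ℂ (W n) = 1)
    (hW : ∀ x y : EuclideanSpace ℂ (Fin 4),
      (∀ n, ‖(W n).starProjection x‖ = ‖(W n).starProjection y‖) →
      ∃ c : ℂ, ‖c‖ = 1 ∧ x = c • y) : ∃ φ : ι → XX, Good φ := by
  have : ∀ n, ∃ v, W n = ℂ ∙ v := by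
    intro n
    obtain ⟨v, hv, hv0⟩ := Submodule.exists_mem_ne_zero_of_ne_bot (p := W n) (by
      intro h
      have := h1 n
      rw [h] at this
      simp at this)
    exact ⟨v, eq_span_singleton_of_mem_of_finrank_eq_one (h1 n) hv hv0⟩
  choose v hv using this
  refine ⟨fun n => (v n).ofLp, fun x y hxy => ?_⟩
  obtain ⟨c, hc, e⟩ := hW (WithLp.toLp 2 x) (WithLp.toLp 2 y) fun n => by
    have h2 := hxy n
    rw [dot_rho_self, dot_rho_self] at h2
    have h3 := (pow_left_inj₀ (norm_nonneg _) (norm_nonneg _) two_ne_zero).1 h2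
    have e : ∀ z : XX, inner ℂ (v n) (WithLp.toLp 2 z) = ip (v n).ofLp z := fun z => by
      rw [EuclideanSpace.inner_eq_star_dotProduct, dotProduct_comm]; rfl
    simp only [hv n, Submodule.starProjection_singleton, norm_smul, norm_div, e, h3]
  exact ⟨c, hc, congrArg WithLp.ofLp e⟩

end Pool.Agent.Work.MP_d1ad45_an
end
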