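import Mathlib

-- merged part: Pool.Agent.Work.MP_d1ad45_an.General
section
/-!
General tools for phase retrieval by projections in dimension four:
density of injectivity, persistence of zeros, openness of nonsingularity,
a greedy choice of functionals, and joint eigenvectors in odd dimension.
-/

namespace Pool.Agent.Work.MP_d1ad45_an

open Filter Topology Set Module

section An

variable {P A B C : Type*} [NormedAddCommGroup P] [NormedSpace ℝ P]
  [NormedAddCommGroup A] [NormedSpace ℝ A] [FiniteDimensional ℝ A]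
  [NormedAddCommGroup B] [NormedSpace ℝ B] [FiniteDimensional ℝ B]
  [NormedAddCommGroup C] [NormedSpace ℝ C]

theorem an_lin (l : A →ₗ[ℝ] C) {f : P → A} {x : P} (hf : AnalyticAt ℝ f x) :
    AnalyticAt ℝ (fun p => l (f p)) x :=
  ((LinearMap.toContinuousLinearMap l).analyticAt (f x)).comp hf

theorem an_bil (b : A →ₗ[ℝ] B →ₗ[ℝ] C) {f : P → A} {g : P → B} {x : P}
    (hf : AnalyticAt ℝ f x) (hg : AnalyticAt ℝ g x) :
    AnalyticAt ℝ (fun p => b (f p) (g p)) x := by
  let b' : A →L[ℝ] B →L[ℝ] C := LinearMap.toContinuousLinearMap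
    ((LinearMap.toContinuousLinearMap (𝕜 := ℝ) (E := B) (F' := C)).toLinearMap ∘ₗ b)
  exact (b'.analyticAt_bilinear (f x, g x)).comp₂ hf hg

theorem an_apply {ι : Type*} [Fintype ι] {f : P → ι → C} {x : P} (hf : AnalyticAt ℝ f x)
    (i : ι) : AnalyticAt ℝ (fun p => f p i) x :=
  analyticAt_pi_iff.1 hf i

end An

/-- Injectivity of an analytic family of linear maps holds on a dense open set as soon as it
holds at one point. -/
theorem dense_inj {P E F : Type*} [NormedAddCommGroup P] [NormedSpace ℝ P]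
    [AddCommGroup E] [Module ℝ E] [FiniteDimensional ℝ E]
    [NormedAddCommGroup F] [NormedSpace ℝ F] [FiniteDimensional ℝ F]
    (A : P → E →ₗ[ℝ] F) (hA : ∀ v x, AnalyticAt ℝ (fun p => A p v) x) (p1 : P)
    (h1 : ∀ v, A p1 v = 0 → v = 0) :
    ∃ W : Set P, IsOpen W ∧ Dense W ∧ ∀ p ∈ W, ∀ v, A p v = 0 → v = 0 := by
  classical
  obtain ⟨g, hg⟩ := (A p1).exists_leftInverse_of_injective (LinearMap.ker_eq_bot'.2 h1)
  let b := Module.finBasis ℝ E
  let D : P → ℝ := fun p => (LinearMap.toMatrix b b (g ∘ₗ A p)).det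
  have hD : ∀ x, AnalyticAt ℝ D x := by
    intro x
    simp only [D, Matrix.det_apply', LinearMap.toMatrix_apply]
    refine Finset.analyticAt_fun_sum _ fun σ _ => analyticAt_const.mul ?_
    refine Finset.analyticAt_fun_prod _ fun i _ => ?_
    exact an_lin ((b.coord (σ i)) ∘ₗ g) (hA (b i) x)
  have hD1 : D p1 = 1 := by simp [D, hg]
  have hc : Continuous D := continuous_iff_continuousAt.2 fun x => (hD x).continuousAt
  refine ⟨{p | D p ≠ 0}, isOpen_ne_fun hc continuous_const, ?_, ?_⟩
  · intro x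
    by_contra hx
    have h0 : D =ᶠ[𝓝 x] 0 := by
      have := (isClosed_closure (s := {p | D p ≠ 0})).isOpen_compl.mem_nhds hx
      filter_upwards [this] with y hy
      by_contra h
      exact hy (subset_closure h)
    have := AnalyticOnNhd.eqOn_zero_of_preconnected_of_eventuallyEq_zero
      (U := univ) (fun x _ => hD x) isPreconnected_univ (mem_univ x) h0 (mem_univ p1)
    simp [hD1] at this
  · intro p hp v hv
    have hu : IsUnit (g ∘ₗ A p) := by
      rw [LinearMap.isUnit_iff_isUnit_det, ← LinearMap.det_toMatrix b]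
      exact isUnit_iff_ne_zero.2 hp
    have hinj : Function.Injective (g ∘ₗ A p) :=
      ((Module.End.isUnit_iff _).1 hu).1
    apply hinj
    simp [hv]

/-- Persistence of a nondegenerate zero under perturbation of a parameter. -/
theorem persist {P X Y : Type*} [NormedAddCommGroup P] [NormedSpace ℝ P] [CompleteSpace P]
    [NormedAddCommGroup X] [NormedSpace ℝ X] [CompleteSpace X]
    [NormedAddCommGroup Y] [NormedSpace ℝ Y] [CompleteSpace Y]
    (f : P × X → Y) (p0 : P) (x0 : X) (hf : AnalyticAt ℝ f (p0, x0)) (h0 : f (p0, x0) = 0)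
    (hD : ∀ y, ∃ x r, ∀ t : ℝ, f (p0, x0 + t • x) = t • y + t ^ 2 • r)
    (N : Set (P × X)) (hN : N ∈ 𝓝 (p0, x0)) :
    ∀ᶠ p in 𝓝 p0, ∃ x, (p, x) ∈ N ∧ f (p, x) = 0 := by
  have h1 := hf.hasStrictFDerivAt
  set f' := fderiv ℝ f (p0, x0)
  have h2 : HasStrictFDerivAt (fun z : P × X => (z.1, f z))
      ((ContinuousLinearMap.fst ℝ P X).prod f') (p0, x0) := hasStrictFDerivAt_fst.prodMk h1
  have hs : ∀ y, ∃ x, f' (0, x) = y := by
    intro y
    obtain ⟨x, r, h⟩ := hD y
    refine ⟨x, ?_⟩
    have a1 : HasDerivAt (fun t : ℝ => ((p0, x0 + t • x) : P × X)) (0, x) 0 := by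
      refine (hasDerivAt_const _ _).prodMk ?_
      simpa using ((hasDerivAt_id (0 : ℝ)).smul_const x).const_add x0
    have a2 : HasDerivAt (fun t : ℝ => f (p0, x0 + t • x)) (f' (0, x)) 0 := by
      have : HasFDerivAt f f' (p0, x0 + (0 : ℝ) • x) := by simpa using h1.hasFDerivAt
      exact this.comp_hasDerivAt (0 : ℝ) a1
    have a3 : HasDerivAt (fun t : ℝ => t • y + t ^ 2 • r) y 0 := by
      have := ((hasDerivAt_id (0 : ℝ)).smul_const y).fun_add
        ((hasDerivAt_pow 2 (0 : ℝ)).smul_const r)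
      simpa using this
    have a4 : (fun t : ℝ => f (p0, x0 + t • x)) = fun t : ℝ => t • y + t ^ 2 • r := funext h
    rw [a4] at a2
    exact a2.unique a3
  have h3 := h2.map_nhds_eq_of_surj (by
    rw [LinearMap.range_eq_top]
    rintro ⟨p, y⟩
    obtain ⟨x, hx⟩ := hs (y - f' (p, 0))
    refine ⟨(p, x), ?_⟩
    have : ((p, x) : P × X) = (p, 0) + (0, x) := by simp
    have e : f' (p, x) = y := by rw [this, map_add, hx]; simp
    simp [e])
  have h4 : (fun z : P × X => (z.1, f z)) '' N ∈ 𝓝 ((p0, 0) : P × Y) := by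
    have := image_mem_map (m := fun z : P × X => (z.1, f z)) hN
    rw [h3] at this
    simpa [h0] using this
  have h5 : Tendsto (fun p : P => ((p, 0) : P × Y)) (𝓝 p0) (𝓝 (p0, 0)) :=
    (continuous_id.prodMk continuous_const).tendsto p0
  filter_upwards [h5 h4] with p hp
  obtain ⟨⟨q, x⟩, hz, e⟩ := hp
  simp only [Prod.mk.injEq] at e
  obtain ⟨rfl, e⟩ := e
  exact ⟨x, hz, e⟩

/-- Nonsingularity of a continuous family of bihomogeneous maps is an open condition. -/
theorem open_nonsing {P X Y Z : Type*} [TopologicalSpace P]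
    [NormedAddCommGroup X] [NormedSpace ℝ X] [ProperSpace X]
    [NormedAddCommGroup Y] [NormedSpace ℝ Y] [ProperSpace Y]
    [NormedAddCommGroup Z] (f : P → X → Y → Z)
    (hf : Continuous fun z : P × X × Y => f z.1 z.2.1 z.2.2)
    (hs : ∀ p u v (s t : ℝ), f p u v = 0 → f p (s • u) (t • v) = 0) :
    IsOpen {p | ∀ u v, f p u v = 0 → u = 0 ∨ v = 0} := by
  rw [isOpen_iff_mem_nhds]
  intro p hp
  have hK : IsCompact (Metric.sphere (0 : X) 1 ×ˢ Metric.sphere (0 : Y) 1) :=
    (isCompact_sphere _ _).prod (isCompact_sphere _ _)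
  have := hK.eventually_forall_of_forall_eventually (x₀ := p)
    (P := fun q z => f q z.1 z.2 ≠ 0) (by
      rintro ⟨u, v⟩ ⟨hu, hv⟩
      refine (isOpen_ne_fun hf continuous_const).mem_nhds ?_
      intro h
      rcases hp u v h with rfl | rfl
      · simp at hu
      · simp at hv)
  filter_upwards [this] with q hq u v h
  by_contra hne
  push Not at hne
  refine hq (‖u‖⁻¹ • u, ‖v‖⁻¹ • v) ⟨?_, ?_⟩ (hs q u v _ _ h)
  · simp [norm_smul, hne.1]
  · simp [norm_smul, hne.2]

/-- Greedy choice of functionals cutting out a given subspace. -/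
theorem greedy {V : Type*} [AddCommGroup V] [Module ℝ V] [FiniteDimensional ℝ V]
    (L : Submodule ℝ V) (N : ℕ) : ∀ (A : Fin N → Set (V →ₗ[ℝ] ℝ))
    (_ : ∀ n, (A n).Nonempty) (_ : ∀ n, ∀ f ∈ A n, ∀ h ∈ L, f h = 0)
    (_ : ∀ n h, (∀ f ∈ A n, f h = 0) → h ∈ L)
    (W : Submodule ℝ V) (_ : L ≤ W) (_ : finrank ℝ W ≤ finrank ℝ L + N),
    ∃ f : Fin N → V →ₗ[ℝ] ℝ, (∀ n, f n ∈ A n) ∧ ∀ h ∈ W, (∀ n, f n h = 0) → h ∈ L := by
  induction N with
  | zero =>
    intro A _ _ _ W hLW hW
    refine ⟨fun n => n.elim0, fun n => n.elim0, fun h hh _ => ?_⟩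
    rw [Submodule.eq_of_le_of_finrank_le hLW (by simpa using hW)]
    exact hh
  | succ N ih =>
    intro A hne hL hA W hLW hW
    by_cases hWL : W ≤ L
    · choose f hf using hne
      exact ⟨f, hf, fun h hh _ => hWL hh⟩
    obtain ⟨h0, hh0, hh0L⟩ := SetLike.not_le_iff_exists.1 hWL
    have : ∃ f ∈ A 0, f h0 ≠ 0 := by
      by_contra hc
      push Not at hc
      exact hh0L (hA 0 h0 hc)
    obtain ⟨f0, hf0, hf0h⟩ := this
    have hlt : W ⊓ LinearMap.ker f0 < W := by
      refine lt_of_le_of_ne inf_le_left fun e => hf0h ?_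
      have : h0 ∈ W ⊓ LinearMap.ker f0 := by rw [e]; exact hh0
      exact this.2
    have hr := Submodule.finrank_lt_finrank_of_lt hlt
    obtain ⟨f, hf, hfW⟩ := ih (fun n => A n.succ) (fun n => hne _) (fun n => hL _)
      (fun n => hA _) (W ⊓ LinearMap.ker f0)
      (le_inf hLW fun h hh => hL 0 f0 hf0 h hh) (by omega)
    refine ⟨Fin.cons f0 f, ?_, ?_⟩
    · intro n
      refine Fin.cases ?_ (fun n => ?_) n
      · simpa using hf0
      · simpa using hf n
    · intro h hh hall
      refine hfW h ⟨hh, ?_⟩ fun n => ?_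
      · simpa using hall 0
      · simpa using hall n.succ

theorem odd_root : ∀ (n : ℕ) (p : Polynomial ℝ), p.natDegree = n → Odd n → ∃ x, p.IsRoot x := by
  intro n
  induction n using Nat.strong_induction_on with
  | _ n ih =>
    intro p hp hn
    have h0 : 0 < p.natDegree := by rw [hp]; exact hn.pos
    have hp0 : p ≠ 0 := by rintro rfl; simp at h0
    obtain ⟨q, hq, r, rfl⟩ := Polynomial.exists_irreducible_of_natDegree_pos h0
    have hr0 : r ≠ 0 := right_ne_zero_of_mul hp0
    rw [Polynomial.natDegree_mul hq.ne_zero hr0] at hp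
    have h2 := hq.natDegree_le_two
    have h1 := hq.natDegree_pos
    by_cases h : q.natDegree = 1
    · obtain ⟨x, hx⟩ := Polynomial.exists_root_of_degree_eq_one
        ((Polynomial.degree_eq_iff_natDegree_eq hq.ne_zero).2 h)
      exact ⟨x, by simp [hx.eq_zero]⟩
    · obtain ⟨x, hx⟩ := ih r.natDegree (by omega) r rfl (by
        obtain ⟨k, hk⟩ := hn
        exact ⟨k - 1, by omega⟩)
      exact ⟨x, by simp [hx.eq_zero]⟩

theorem odd_eig {V : Type*} [AddCommGroup V] [Module ℝ V] [FiniteDimensional ℝ V]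
    (hV : Odd (finrank ℝ V)) (f : V →ₗ[ℝ] V) : ∃ (a : ℝ) (v : V), v ≠ 0 ∧ f v = a • v := by
  obtain ⟨x, hx⟩ := odd_root _ f.charpoly f.charpoly_natDegree hV
  obtain ⟨v, hv⟩ := ((Module.End.hasEigenvalue_iff_isRoot_charpoly f x).2 hx).exists_hasEigenvector
  exact ⟨x, v, hv.2, hv.apply_eq_smul⟩

/-- Two commuting operators on an odd-dimensional real space have a common eigenvector. -/
theorem odd_joint {V : Type*} [AddCommGroup V] [Module ℝ V] [FiniteDimensional ℝ V]
    (f g : V →ₗ[ℝ] V) (hfg : ∀ v, f (g v) = g (f v)) :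
    ∀ (n : ℕ) (W : Submodule ℝ V), finrank ℝ W = n → Odd n → (∀ v ∈ W, f v ∈ W) →
      (∀ v ∈ W, g v ∈ W) → ∃ (a b : ℝ) (v : V), v ≠ 0 ∧ f v = a • v ∧ g v = b • v := by
  intro n
  induction n using Nat.strong_induction_on with
  | _ n ih =>
    intro W hW hn hf hg
    obtain ⟨a, v, hv0, hv⟩ := odd_eig (V := W) (hW ▸ hn) (f.restrict hf)
    let k : W →ₗ[ℝ] V := (f - a • LinearMap.id) ∘ₗ W.subtype
    have hk : ∀ w : W, k w = f w - a • (w : V) := fun w => rfl
    have hrk := LinearMap.finrank_range_add_finrank_ker k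
    by_cases hker : LinearMap.ker k = ⊤
    · obtain ⟨b, w, hw0, hw⟩ := odd_eig (V := W) (hW ▸ hn) (g.restrict hg)
      refine ⟨a, b, w, fun h => hw0 (Subtype.ext h), ?_, congrArg Subtype.val hw⟩
      have : k w = 0 := by rw [← LinearMap.mem_ker, hker]; trivial
      rwa [hk, sub_eq_zero] at this
    have hpos : 0 < finrank ℝ (LinearMap.ker k) := by
      rw [Module.finrank_pos_iff_exists_ne_zero]
      refine ⟨⟨v, ?_⟩, fun h => hv0 (congrArg Subtype.val h)⟩
      rw [LinearMap.mem_ker, hk, sub_eq_zero]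
      exact congrArg Subtype.val hv
    have hlt : finrank ℝ (LinearMap.ker k) < finrank ℝ W :=
      Submodule.finrank_lt hker
    by_cases hodd : Odd (finrank ℝ (LinearMap.range k))
    · refine ih _ (by omega) (LinearMap.range k) rfl hodd ?_ ?_
      · rintro _ ⟨w, rfl⟩
        exact ⟨⟨f w, hf _ w.2⟩, by simp [hk]⟩
      · rintro _ ⟨w, rfl⟩
        exact ⟨⟨g w, hg _ w.2⟩, by simp [hk, hfg]⟩
    · have e : finrank ℝ ((LinearMap.ker k).map W.subtype) = finrank ℝ (LinearMap.ker k) :=
        Submodule.finrank_map_subtype_eq _ _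
      refine ih _ (by omega) ((LinearMap.ker k).map W.subtype) e ?_ ?_ ?_
      · rw [Nat.not_odd_iff_even] at hodd
        obtain ⟨i, hi⟩ := hodd
        obtain ⟨j, hj⟩ := hn
        exact ⟨j - i, by omega⟩
      · rintro _ ⟨w, hw, rfl⟩
        refine ⟨⟨f w, hf _ w.2⟩, ?_, rfl⟩
        have : f w - a • (w : V) = 0 := hw
        have h2 : f (f w - a • (w : V)) = 0 := by rw [this, map_zero]
        change f (f w) - a • f w = 0
        simpa using h2
      · rintro _ ⟨w, hw, rfl⟩
        refine ⟨⟨g w, hg _ w.2⟩, ?_, rfl⟩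
        have : f w - a • (w : V) = 0 := hw
        have h2 : g (f w - a • (w : V)) = 0 := by rw [this, map_zero]
        change f (g w) - a • g w = 0
        simpa [hfg] using h2

/-- A linear map to `ι → ℝ` whose range is killed by no nonzero vector is surjective. -/
theorem surj_of_dual {X ι : Type*} [AddCommGroup X] [Module ℝ X] [Fintype ι]
    (D : X →ₗ[ℝ] (ι → ℝ)) (h : ∀ l : ι → ℝ, (∀ z, ∑ i, l i * D z i = 0) → l = 0) :
    Function.Surjective D := by
  classical
  rw [← LinearMap.range_eq_top]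
  by_contra hne
  obtain ⟨f, hf0, hf⟩ := Submodule.exists_le_ker_of_lt_top _ (lt_top_iff_ne_top.2 hne)
  have e : ∀ y, f y = ∑ i, f (Pi.single i 1) * y i := by
    intro y
    rw [LinearMap.pi_apply_eq_sum_univ]
    refine Finset.sum_congr rfl fun i _ => ?_
    rw [smul_eq_mul, mul_comm]
    congr 2
    funext j
    simp [Pi.single_apply, eq_comm]
  have := h (fun i => f (Pi.single i 1)) fun z => by
    rw [← e]; exact hf ⟨z, rfl⟩
  apply hf0
  ext i
  simpa using congrFun this i

end Pool.Agent.Work.MP_d1ad45_an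
end

-- merged part: Pool.Agent.Work.MP_d1ad45_an.Basic
section
/-!
Real coordinates on Hermitian four by four matrices and the basic facts on phase retrieval by
vectors in `ℂ^4`.
-/

namespace Pool.Agent.Work.MP_d1ad45_an

open Filter Topology Set Module Matrix ComplexConjugate

abbrev XX := Fin 4 → ℂ
abbrev VV := Fin 4 → Fin 4 → ℝ
abbrev M4 := Matrix (Fin 4) (Fin 4) ℂ

def dot : VV →ₗ[ℝ] VV →ₗ[ℝ] ℝ :=
  LinearMap.mk₂ ℝ (fun h k => ∑ i, ∑ j, h i j * k i j)
    (fun _ _ _ => by simp [add_mul, Finset.sum_add_distrib])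
    (fun _ _ _ => by simp [Finset.mul_sum, mul_assoc])
    (fun _ _ _ => by simp [mul_add, Finset.sum_add_distrib])
    (fun _ _ _ => by simp [Finset.mul_sum, mul_left_comm])

theorem dot_apply (h k : VV) : dot h k = ∑ i, ∑ j, h i j * k i j := rfl

theorem dot_comm (h k : VV) : dot h k = dot k h := by
  simp [dot_apply, mul_comm]

noncomputable def Hm : VV →ₗ[ℝ] M4 where
  toFun h := Matrix.of fun i j => ⟨(h i j + h j i) / 2, (h i j - h j i) / 2⟩
  map_add' _ _ := by
    ext i j
    apply Complex.ext <;> simp <;> ring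
  map_smul' _ _ := by
    ext i j
    apply Complex.ext <;> simp <;> ring

theorem Hm_re (h : VV) (i j : Fin 4) : (Hm h i j).re = (h i j + h j i) / 2 := rfl
theorem Hm_im (h : VV) (i j : Fin 4) : (Hm h i j).im = (h i j - h j i) / 2 := rfl

def cm (M : M4) : VV := fun i j => (M i j).re + (M i j).im

theorem Hm_herm (h : VV) : (Hm h).IsHermitian := by
  ext i j
  apply Complex.ext <;> simp [Hm_re, Hm_im] <;> ring

theorem Hm_cm {M : M4} (hM : M.IsHermitian) : Hm (cm M) = M := by
  ext i j
  have := hM.apply i j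
  have h1 := congrArg Complex.re this
  have h2 := congrArg Complex.im this
  simp only [Complex.star_def, Complex.conj_re, Complex.conj_im] at h1 h2
  apply Complex.ext <;> simp only [Hm_re, Hm_im, cm] <;> linarith

noncomputable def rho : XX →ₗ[ℝ] XX →ₗ[ℝ] VV :=
  LinearMap.mk₂ ℝ (fun x y i j => ((x i).re * (y j).re + (x i).im * (y j).im +
      (x i).im * (y j).re - (x i).re * (y j).im + (y i).re * (x j).re + (y i).im * (x j).im +
      (y i).im * (x j).re - (y i).re * (x j).im) / 2)
    (fun _ _ _ => by ext i j; simp; ring)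
    (fun _ _ _ => by ext i j; simp; ring)
    (fun _ _ _ => by ext i j; simp; ring)
    (fun _ _ _ => by ext i j; simp; ring)

theorem rho_apply (x y : XX) (i j : Fin 4) : rho x y i j = ((x i).re * (y j).re +
    (x i).im * (y j).im + (x i).im * (y j).re - (x i).re * (y j).im + (y i).re * (x j).re +
    (y i).im * (x j).im + (y i).im * (x j).re - (y i).re * (x j).im) / 2 := rfl

theorem rho_comm (x y : XX) : rho x y = rho y x := by
  ext i j; simp only [rho_apply]; ring

theorem rho_smul (c : ℂ) (x : XX) : rho (c • x) (c • x) = Complex.normSq c • rho x x := by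
  ext i j; simp [rho_apply, Complex.normSq_apply]; ring

def ip (x y : XX) : ℂ := star x ⬝ᵥ y

theorem dot_rho (h : VV) (x y : XX) : dot h (rho x y) = (ip x (Hm h *ᵥ y)).re := by
  simp [dot_apply, rho_apply, ip, dotProduct, Matrix.mulVec, Fin.sum_univ_four, Hm_re, Hm_im]
  ring

theorem Hm_rho (x : XX) : Hm (rho x x) = vecMulVec x (star x) := by
  ext i j
  apply Complex.ext <;> simp [Hm_re, Hm_im, rho_apply, vecMulVec_apply] <;> ring

theorem dot_rho_rho (f x y : XX) : dot (rho f f) (rho x y) = (conj (ip f x) * ip f y).re := by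
  simp [dot_apply, rho_apply, ip, dotProduct, Fin.sum_univ_four]
  ring

theorem dot_rho_self (f x : XX) : dot (rho f f) (rho x x) = ‖ip f x‖ ^ 2 := by
  rw [dot_rho_rho, ← Complex.normSq_eq_norm_sq, ← Complex.normSq_eq_conj_mul_self]
  simp

theorem dot_sep (h : VV) (hh : ∀ x, dot h (rho x x) = 0) : h = 0 := by
  have h1 : ∀ x y, dot h (rho x y) = 0 := by
    intro x y
    have := hh (x + y)
    simp only [map_add, LinearMap.add_apply, hh, rho_comm y x] at this
    linarith
  ext i j
  have a := h1 (Pi.single i 1) (Pi.single j 1)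
  have b := h1 (Pi.single i 1) (Pi.single j Complex.I)
  rw [dot_rho] at a b
  simp [ip, Hm_re, Hm_im] at a b
  simp only [Pi.zero_apply]
  linarith

def idV : VV := fun i j => if i = j then 1 else 0

theorem Hm_idV : Hm idV = 1 := by
  ext i j
  apply Complex.ext <;> simp [Hm_re, Hm_im, idV, Matrix.one_apply, eq_comm] <;> split_ifs <;> simp

theorem dot_idV (h : VV) : dot idV h = ∑ i, h i i := by
  simp [dot_apply, idV]

theorem dot_idV_rho (x : XX) : dot idV (rho x x) = (ip x x).re := by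
  rw [dot_rho, Hm_idV, Matrix.one_mulVec]

theorem ip_self (x : XX) : ip x x = ((ip x x).re : ℂ) := by
  apply Complex.ext
  · simp
  · simp [ip, dotProduct, Fin.sum_univ_four]; ring

open ComplexOrder in
theorem ip_self_eq_zero {x : XX} (h : (ip x x).re = 0) : x = 0 := by
  rw [← dotProduct_star_self_eq_zero (v := x)]
  have := ip_self x
  rw [h] at this
  simpa [ip] using this

/-- Phase retrieval by the vectors `φ n`. -/
def Good {ι : Type*} (φ : ι → XX) : Prop :=
  ∀ x y, (∀ n, dot (rho (φ n) (φ n)) (rho x x) = dot (rho (φ n) (φ n)) (rho y y)) →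
    ∃ c : ℂ, ‖c‖ = 1 ∧ x = c • y

theorem good_iff {ι : Type*} (φ : ι → XX) : Good φ ↔ ∀ u v, (ip u v).im = 0 →
    (∀ n, dot (rho (φ n) (φ n)) (rho u v) = 0) → u = 0 ∨ v = 0 := by
  constructor
  · intro h u v huv hn
    obtain ⟨c, hc, e⟩ := h (u + v) (u - v) fun n => by
      simp only [map_add, map_sub, LinearMap.add_apply, LinearMap.sub_apply, rho_comm v u, hn n]
      ring
    by_cases hy : u - v = 0
    · left
      rw [hy, smul_zero] at e
      have : (2 : ℂ) • u = (u + v) + (u - v) := by module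
      rw [e, hy, add_zero] at this
      simpa using this
    have h1 : (ip (u - v) (u + v)).im = 0 := by
      simp [ip, dotProduct, Fin.sum_univ_four] at huv ⊢
      linarith
    have h2 : c.im = 0 := by
      rw [e, ip, dotProduct_smul, ← ip, ip_self] at h1
      simp only [smul_eq_mul, Complex.mul_im, Complex.ofReal_im, mul_zero, Complex.ofReal_re,
        zero_add, mul_eq_zero] at h1
      exact h1.resolve_right fun h => hy (ip_self_eq_zero h)
    have h3 : c.re * c.re = 1 := by
      have := Complex.normSq_eq_norm_sq c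
      rw [hc, Complex.normSq_apply, h2] at this
      linarith
    rcases mul_self_eq_one_iff.1 h3 with h4 | h4
    · right
      have : c = 1 := Complex.ext h4 h2
      rw [this, one_smul] at e
      have : (2 : ℂ) • v = (u + v) - (u - v) := by module
      rw [e, sub_self] at this
      simpa using this
    · left
      have : c = -1 := Complex.ext (by simpa using h4) (by simpa using h2)
      rw [this] at e
      have : (2 : ℂ) • u = (u + v) + (u - v) := by module
      rw [e] at this
      simpa using this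
  · intro h x y hn
    obtain ⟨c, hc, e⟩ := Complex.exists_norm_eq_mul_self (ip x y)
    have hc' : Complex.normSq c = 1 := by rw [Complex.normSq_eq_norm_sq, hc]; norm_num
    have e' : (ip x (c • y)).im = 0 := by
      rw [ip, dotProduct_smul, ← ip, smul_eq_mul, ← e]; simp
    have hr : rho (c • y) (c • y) = rho y y := by rw [rho_smul, hc', one_smul]
    generalize hz : c • y = z at e' hr
    rcases h (x + z) (x - z) (by
      simp [ip, dotProduct, Fin.sum_univ_four] at e' ⊢
      linarith) (fun n => by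
      simp only [map_add, map_sub, LinearMap.add_apply, rho_comm z x, hn n, hr]
      ring) with h1 | h1
    · exact ⟨-c, by simpa using hc, by rw [neg_smul, hz]; exact eq_neg_of_add_eq_zero_left h1⟩
    · exact ⟨c, hc, by rw [hz]; exact sub_eq_zero.1 h1⟩

theorem an_meas {P : Type*} [NormedAddCommGroup P] [NormedSpace ℝ P] {h : P → VV} {f g : P → XX}
    {x : P} (hh : AnalyticAt ℝ h x) (hf : AnalyticAt ℝ f x) (hg : AnalyticAt ℝ g x) :
    AnalyticAt ℝ (fun p => dot (h p) (rho (f p) (g p))) x :=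
  an_bil dot hh (an_bil rho hf hg)

theorem good_open {ι : Type*} [Fintype ι] : IsOpen {φ : ι → XX | Good φ} := by
  have := open_nonsing (fun (φ : ι → XX) (u v : XX) =>
    (((ip u v).im, fun n => dot (rho (φ n) (φ n)) (rho u v)) : ℝ × (ι → ℝ))) (by
      refine Continuous.prodMk ?_ (continuous_pi fun n => ?_)
      · simp only [ip, dotProduct]
        fun_prop
      · exact continuous_iff_continuousAt.2 fun p => (an_meas (an_bil rho
          (an_apply analyticAt_fst n) (an_apply analyticAt_fst n))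
          (analyticAt_fst.comp analyticAt_snd) (analyticAt_snd.comp analyticAt_snd)).continuousAt)
    (by
      intro φ u v s t h
      simp only [Prod.mk_eq_zero] at h ⊢
      refine ⟨?_, funext fun n => ?_⟩
      · have := h.1
        simp [ip, dotProduct, Fin.sum_univ_four] at this ⊢
        linear_combination s * t * this
      · have := congrFun h.2 n
        simp only [Pi.zero_apply] at this
        simp [this])
  have e : {φ : ι → XX | Good φ} = _ := Set.ext fun φ => (good_iff φ).trans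
    ⟨fun h u v (h' : (((ip u v).im, fun n => dot (rho (φ n) (φ n)) (rho u v)) : ℝ × (ι → ℝ)) = 0) =>
      h u v (congrArg Prod.fst h') (congrFun (congrArg Prod.snd h')),
    fun h u v h1 h2 => h u v (Prod.ext h1 (funext h2))⟩
  rw [e]
  exact this

/-- At least ten vectors are needed. -/
theorem good_card {ι : Type*} [Fintype ι] {φ : ι → XX} (h : Good φ) : 10 ≤ Fintype.card ι := by
  classical
  by_contra hc
  obtain ⟨j⟩ : Nonempty (ι ↪ Fin 9) := Function.Embedding.nonempty_of_card_le (by simp; omega)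
  let ψ : Fin 9 → XX := Function.extend j φ 0
  have hψ : ∀ n, ψ (j n) = φ n := fun n => j.injective.extend_apply _ _ _
  let l : XX →ₗ[ℂ] (Fin 3 → ℂ) := Matrix.mulVecLin (Matrix.of fun k => star (ψ (Fin.castAdd 6 k)))
  obtain ⟨x, hx, hx0⟩ : ∃ x ∈ LinearMap.ker l, x ≠ 0 :=
    Submodule.exists_mem_ne_zero_of_ne_bot (LinearMap.ker_ne_bot_of_finrank_lt (by simp))
  have hx' : ∀ k : Fin 3, ip (ψ (Fin.castAdd 6 k)) x = 0 := fun k => congrFun hx k
  let m : XX →ₗ[ℝ] ℝ × (Fin 6 → ℝ) :=
    { toFun := fun v => ((ip x v).im,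
        fun k => dot (rho (ψ (Fin.natAdd 3 k)) (ψ (Fin.natAdd 3 k))) (rho x v))
      map_add' := fun _ _ => by ext <;> simp [ip]
      map_smul' := fun _ _ => by ext <;> simp [ip] }
  obtain ⟨v, hv, hv0⟩ : ∃ v ∈ LinearMap.ker m, v ≠ 0 :=
    Submodule.exists_mem_ne_zero_of_ne_bot (LinearMap.ker_ne_bot_of_finrank_lt (by
      simp [Module.finrank_pi_fintype]))
  have hv' : m v = 0 := hv
  have key : ∀ k : Fin (3 + 6), dot (rho (ψ k) (ψ k)) (rho x v) = 0 := by
    intro k
    refine Fin.addCases (fun k => ?_) (fun k => ?_) k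
    · rw [dot_rho_rho, hx']; simp
    · exact congrFun (congrArg Prod.snd hv') k
  rcases (good_iff φ).1 h x v (congrArg Prod.fst hv') (fun n => by rw [← hψ]; exact key _)
    with h | h
  · exact hx0 h
  · exact hv0 h

/-- A Hermitian idempotent of trace `d` is the orthogonal projection onto a subspace of
dimension `d`. -/
theorem exists_subspace (p : VV) (d : ℕ) (hp : Hm p * Hm p = Hm p) (hd : dot idV p = d) :
    ∃ W : Submodule ℂ (EuclideanSpace ℂ (Fin 4)), finrank ℂ W = d ∧
      ∀ x, ‖W.starProjection x‖ ^ 2 = dot p (rho x.ofLp x.ofLp) := by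
  let f := Matrix.toEuclideanLin (Hm p)
  have hff : ∀ x, f (f x) = f x := by
    intro x
    change WithLp.toLp 2 (Hm p *ᵥ (Hm p *ᵥ x.ofLp)) = WithLp.toLp 2 (Hm p *ᵥ x.ofLp)
    rw [Matrix.mulVec_mulVec, hp]
  have hs : f.IsSymmetric := Matrix.isSymmetric_toEuclideanLin_iff.2 (Hm_herm p)
  refine ⟨LinearMap.range f, ?_, fun x => ?_⟩
  · have h1 := (LinearMap.IsIdempotentElem.isProj_range f (LinearMap.ext hff)).trace
    have h2 : LinearMap.trace ℂ _ f = (Hm p).trace := by
      simp only [f, Matrix.toEuclideanLin_eq_toLin_orthonormal, Matrix.trace_toLin_eq]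
    have h3 : (Hm p).trace = (d : ℂ) := by
      rw [dot_idV] at hd
      apply Complex.ext
      · simp [Matrix.trace, Hm_re, ← hd]
      · simp [Matrix.trace, Hm_im]
    rw [h2, h3] at h1
    exact_mod_cast h1.symm
  · have h1 : (LinearMap.range f).starProjection x = f x := by
      refine Submodule.eq_starProjection_of_mem_of_inner_eq_zero ⟨x, rfl⟩ ?_
      rintro _ ⟨y, rfl⟩
      rw [← hs, map_sub, hff, sub_self, inner_zero_left]
    rw [h1, dot_rho, ← inner_self_eq_norm_sq (𝕜 := ℂ), hs, hff,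
      EuclideanSpace.inner_eq_star_dotProduct, dotProduct_comm]
    rfl

end Pool.Agent.Work.MP_d1ad45_an
end

-- merged part: Pool.Agent.Work.MP_d1ad45_an.Hopf
section
/-!
There is no nonsingular bilinear map from `ℝ^3 × ℝ^6` to `ℝ^7`.  The proof builds two commuting
operators on the symmetric square of `ℝ^6`, which has odd dimension 21.
-/

namespace Pool.Agent.Work.MP_d1ad45_an

open Filter Topology Set Module Matrix

abbrev SS := Sym2 (Fin 6) → ℝ
abbrev TT := {p : Fin 7 × Fin 7 // p.1 < p.2} → ℝ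
abbrev M76 := Matrix (Fin 7) (Fin 6) ℝ

def sm : SS →ₗ[ℝ] Matrix (Fin 6) (Fin 6) ℝ where
  toFun s := Matrix.of fun i j => s s(i, j)
  map_add' _ _ := rfl
  map_smul' _ _ := rfl

theorem sm_tr (s : SS) : (sm s)ᵀ = sm s := by
  ext i j
  change s s(j, i) = s s(i, j)
  rw [Sym2.eq_swap]

def up : Matrix (Fin 7) (Fin 7) ℝ →ₗ[ℝ] TT where
  toFun A := fun p => A p.1.1 p.1.2
  map_add' _ _ := rfl
  map_smul' _ _ := rfl

def kk (C : M76) : M76 →ₗ[ℝ] TT where
  toFun E := up (E * Cᵀ - C * Eᵀ)
  map_add' E F := by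
    rw [← map_add]; congr 1
    simp only [Matrix.add_mul, Matrix.transpose_add, Matrix.mul_add]; abel
  map_smul' a E := by
    rw [RingHom.id_apply, ← map_smul]; congr 1
    simp only [Matrix.smul_mul, Matrix.transpose_smul, Matrix.mul_smul, smul_sub]

def dl (B C : M76) : SS →ₗ[ℝ] TT where
  toFun s := kk C (B * sm s)
  map_add' s t := by rw [map_add, Matrix.mul_add, map_add]
  map_smul' a s := by rw [map_smul, Matrix.mul_smul, map_smul, RingHom.id_apply]

theorem dl_apply (B C : M76) (s : SS) : dl B C s = up (B * sm s * Cᵀ - C * sm s * Bᵀ) := by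
  change up (B * sm s * Cᵀ - C * (B * sm s)ᵀ) = _
  rw [Matrix.transpose_mul, sm_tr, Matrix.mul_assoc C]

theorem dl_swap (B C : M76) (s : SS) : dl B C s = - dl C B s := by
  rw [dl_apply, dl_apply, ← map_neg, neg_sub]

theorem dl_self (B : M76) (s : SS) : dl B B s = 0 := by
  rw [dl_apply, sub_self, map_zero]

theorem finrank_SS : finrank ℝ SS = 21 := by
  simp [SS, Sym2.card]
  rfl

theorem finrank_TT : finrank ℝ TT = 21 := by
  simp only [TT, Module.finrank_fintype_fun_eq_card]
  rfl

theorem hopf_generic (B0 B1 B2 : M76) (h : ∀ s, dl B1 B2 s = 0 → s = 0) :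
    ∃ (a b : ℝ) (v : Fin 6 → ℝ), v ≠ 0 ∧ (B0 + a • B1 + b • B2) *ᵥ v = 0 := by
  have hinj : Function.Injective (dl B1 B2) := LinearMap.ker_eq_bot.1 (LinearMap.ker_eq_bot'.2 h)
  let e := LinearMap.linearEquivOfInjective (dl B1 B2) hinj (finrank_SS.trans finrank_TT.symm)
  have he : ∀ t, dl B1 B2 (e.symm t) = t := fun t => e.apply_symm_apply t
  let G1 : SS →ₗ[ℝ] SS := e.symm.toLinearMap ∘ₗ dl B2 B0
  let G2 : SS →ₗ[ℝ] SS := e.symm.toLinearMap ∘ₗ dl B0 B1
  have hG1 : ∀ s, dl B1 B2 (G1 s) = dl B2 B0 s := fun s => he _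
  have hG2 : ∀ s, dl B1 B2 (G2 s) = dl B0 B1 s := fun s => he _
  have hdl : ∀ (B C : M76) s, kk C (B * sm s) = dl B C s := fun _ _ _ => rfl
  let κ : M76 →ₗ[ℝ] TT × TT := (kk B1).prod (kk B2)
  have hκs : Function.Surjective κ := by
    rintro ⟨a, b⟩
    refine ⟨B1 * sm (e.symm b) + B2 * sm (e.symm (-a)), ?_⟩
    ext1
    · change kk B1 _ = a
      rw [map_add, hdl, hdl, dl_self, dl_swap, he]; simp
    · change kk B2 _ = b
      rw [map_add, hdl, hdl, dl_self, he]; simp
  have hκ : Function.Injective κ := by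
    refine (LinearMap.injective_iff_surjective_of_finrank_eq_finrank ?_).2 hκs
    rw [Module.finrank_prod, finrank_TT, Module.finrank_matrix]
    simp
  have hE : ∀ s, B0 * sm s + B1 * sm (G1 s) + B2 * sm (G2 s) = 0 := by
    intro s
    apply hκ
    rw [map_zero]
    ext1
    · change kk B1 _ = 0
      rw [map_add, map_add, hdl, hdl, hdl, dl_self, dl_swap B2 B1, hG2]; simp
    · change kk B2 _ = 0
      rw [map_add, map_add, hdl, hdl, hdl, dl_self, hG1, dl_swap B0 B2]; simp
  have hc : ∀ s, G1 (G2 s) = G2 (G1 s) := by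
    intro s
    apply hinj
    rw [hG1, hG2]
    have := congrArg (kk B0) (hE s)
    rw [map_add, map_add, hdl, hdl, hdl, dl_self, map_zero, dl_swap B1 B0, zero_add,
      neg_add_eq_zero] at this
    exact this.symm
  obtain ⟨a, b, s, hs0, ha, hb⟩ := odd_joint G1 G2 hc 21 ⊤ (by rw [finrank_top, finrank_SS]) (by decide)
    (fun _ _ => trivial) (fun _ _ => trivial)
  have h1 := hE s
  rw [ha, hb, map_smul, map_smul, Matrix.mul_smul, Matrix.mul_smul, ← Matrix.smul_mul,
    ← Matrix.smul_mul, ← Matrix.add_mul, ← Matrix.add_mul] at h1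
  obtain ⟨q, hq⟩ := Function.ne_iff.1 hs0
  induction q using Sym2.ind with
  | _ i j =>
    refine ⟨a, b, fun k => sm s k j, fun h => hq (congrFun h i), ?_⟩
    funext r
    exact congrFun (congrFun h1 r) j

def exB : Fin 3 → Fin 7 → Fin 6 → ℝ := fun i r c =>
  if (r : ℕ) + 1 = (c : ℕ) + (i : ℕ) then 1 else 0

theorem exB_inj (s : SS) (h : dl (Matrix.of (exB 1)) (Matrix.of (exB 2)) s = 0) : s = 0 := by
  rw [dl_apply] at h
  have h1 : ∀ i j : Fin 7, i < j → (Matrix.of (exB 1) * sm s * (Matrix.of (exB 2))ᵀ -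
      Matrix.of (exB 2) * sm s * (Matrix.of (exB 1))ᵀ : Matrix (Fin 7) (Fin 7) ℝ) i j = 0 :=
    fun i j hij => congrFun h ⟨(i, j), hij⟩
  have hs := sm_tr s
  have key : sm s = 0 := by
    generalize sm s = W at h1 hs
    have hw : ∀ i j, W j i = W i j := fun i j => congrFun (congrFun hs i) j
    simp only [Fin.forall_fin_succ, Matrix.sub_apply, Matrix.mul_apply, Fin.sum_univ_succ,
      Matrix.of_apply, Matrix.transpose_apply, exB] at h1
    simp at h1
    obtain ⟨⟨a0, a1, a2, a3, a4, a5⟩, ⟨b1, b2, b3, b4, b5⟩, ⟨c2, c3, c4, c5⟩, ⟨d3, d4, d5⟩,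
      ⟨e4, e5⟩, f5⟩ := h1
    simp only [a2, a3, a4, a5, sub_zero] at b1 b2 b3 b4
    simp only [b3, b4, b5, sub_zero] at c2 c3 c4
    simp only [c4, c5, sub_zero] at d3 d4
    simp only [d5, sub_zero] at e4
    have hle : ∀ i j : Fin 6, i ≤ j → W i j = 0 := by
      simp only [Fin.forall_fin_succ]
      simp [a0, a1, a2, a3, a4, a5, b1, b2, b3, b4, b5, c2, c3, c4, c5, d3, d4, d5, e4, e5, f5]
    ext i j
    rcases le_total i j with h | h
    · exact hle i j h
    · rw [← hw]; exact hle j i h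
  funext q
  induction q using Sym2.ind with
  | _ i j => exact congrFun (congrFun key i) j

theorem hopf_stiefel (B : Fin 3 → Fin 7 → Fin 6 → ℝ) :
    ∃ (l : Fin 3 → ℝ) (v : Fin 6 → ℝ), l ≠ 0 ∧ v ≠ 0 ∧
      ∀ r, ∑ i, ∑ c, l i * B i r c * v c = 0 := by
  by_contra hne
  let f : (Fin 3 → Fin 7 → Fin 6 → ℝ) → (Fin 3 → ℝ) → (Fin 6 → ℝ) → (Fin 7 → ℝ) :=
    fun B l v r => ∑ i, ∑ c, l i * B i r c * v c
  have ho := open_nonsing f (by fun_prop) (by
    intro B l v s t h
    funext r
    have := congrFun h r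
    simp only [f, Pi.smul_apply, smul_eq_mul, Pi.zero_apply] at this ⊢
    calc _ = s * t * ∑ i, ∑ c, l i * B i r c * v c := by
          simp only [Finset.mul_sum]
          exact Finset.sum_congr rfl fun _ _ => Finset.sum_congr rfl fun _ _ => by ring
      _ = 0 := by rw [this, mul_zero])
  obtain ⟨W, -, hW, hWi⟩ := dense_inj
    (fun B : Fin 3 → Fin 7 → Fin 6 → ℝ => dl (Matrix.of (B 1)) (Matrix.of (B 2))) (by
      intro s x
      refine AnalyticAt.pi fun p => ?_
      simp only [dl_apply]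
      change AnalyticAt ℝ (fun B : Fin 3 → Fin 7 → Fin 6 → ℝ =>
        (Matrix.of (B 1) * sm s * (Matrix.of (B 2))ᵀ -
          Matrix.of (B 2) * sm s * (Matrix.of (B 1))ᵀ : Matrix (Fin 7) (Fin 7) ℝ) p.1.1 p.1.2) x
      simp only [Matrix.sub_apply, Matrix.mul_apply, Matrix.of_apply, Matrix.transpose_apply]
      have hx : ∀ i r c, AnalyticAt ℝ (fun B : Fin 3 → Fin 7 → Fin 6 → ℝ => B i r c) x :=
        fun i r c => an_apply (an_apply (an_apply analyticAt_id i) r) c
      refine AnalyticAt.sub ?_ ?_ <;>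
        exact Finset.analyticAt_fun_sum _ fun _ _ =>
          (Finset.analyticAt_fun_sum _ fun _ _ => (hx _ _ _).mul analyticAt_const).mul (hx _ _ _))
    exB exB_inj
  obtain ⟨B', hB', hB'W⟩ := hW.inter_open_nonempty _ ho ⟨B, by
    intro l v h
    by_contra hc
    push Not at hc
    exact hne ⟨l, v, hc.1, hc.2, congrFun h⟩⟩
  obtain ⟨a, b, v, hv0, hv⟩ := hopf_generic (Matrix.of (B' 0)) _ _ (hWi B' hB'W)
  rcases hB' ![1, a, b] v (by
    funext r
    have := congrFun hv r
    simp only [Matrix.mulVec, dotProduct, Matrix.add_apply, Matrix.smul_apply, Matrix.of_apply,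
      smul_eq_mul, Pi.zero_apply] at this
    simp only [f, Fin.sum_univ_three, Pi.zero_apply]
    rw [← this, ← Finset.sum_add_distrib, ← Finset.sum_add_distrib]
    exact Finset.sum_congr rfl fun _ _ => by simp; ring) with h | h
  · simpa using congrFun h 0
  · exact hv0 h

end Pool.Agent.Work.MP_d1ad45_an
end
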